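import Mathlib

/-!
# A transfer principle for algebraically closed fields
-/

set_option autoImplicit false

namespace Pool.Agent.V5helper31.UB

open FirstOrder FirstOrder.Language FirstOrder.Ring FirstOrder.Field

section

variable {α I J : Type} [Finite α] [Finite I] [Finite J] (β κ : J → Type)
  [∀ j, Finite (β j)] [∀ j, Finite (κ j)]
  (P : I → FreeCommRing α) (Q : ∀ j, κ j → FreeCommRing (α ⊕ β j))

/-- every solution of the equations `P` extends to a solution of one of the systems `Q` -/
def Solv (K : Type) [CommRing K] : Prop :=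
  ∀ c : α → K, (∀ i, FreeCommRing.lift c (P i) = 0) →
    ∃ j, ∃ w : β j → K, ∀ q, FreeCommRing.lift (Sum.elim c w) (Q j q) = 0

/-- the sentence -/
noncomputable def sent : Language.ring.Sentence :=
  Formula.iAlls α (((Formula.iInf fun i : I =>
      Term.equal (termOfFreeCommRing (P i)) (0 : Language.ring.Term α)).imp
    (Formula.iSup fun j : J => Formula.iExs (β j)
      (Formula.iInf fun q : κ j =>
        Term.equal (termOfFreeCommRing (Q j q)) (0 : Language.ring.Term (α ⊕ β j))))).relabel
    (Sum.inr : α → Empty ⊕ α))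

lemma realize_sent (K : Type) [Field K] [CompatibleRing K] :
    K ⊨ sent β κ P Q ↔ Solv β κ P Q K := by
  unfold sent Solv
  rw [Sentence.Realize, Formula.realize_iAlls]
  refine forall_congr' fun c => ?_
  rw [Formula.realize_relabel, Formula.realize_imp]
  have h1 : (Sum.elim (default : Empty → K) c) ∘ Sum.inr = c := by
    funext a
    rfl
  simp only [h1, Formula.realize_iInf, Formula.realize_iSup, Formula.realize_iExs,
    Formula.realize_equal, realize_termOfFreeCommRing, realize_zero]

/-- transfer from one algebraically closed field of characteristic `p` to all others -/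
theorem solv_of_closure (p : ℕ) (hp : p.Prime ∨ p = 0) (K K' : Type) [Field K] [Field K']
    [IsAlgClosed K] [IsAlgClosed K'] [CharP K p] [CharP K' p] (h : Solv β κ P Q K) :
    Solv β κ P Q K' := by
  let _ := compatibleRingOfRing K
  let _ := compatibleRingOfRing K'
  rw [← realize_sent] at h ⊢
  have h1 := (ACF_isComplete hp).realize_sentence_iff (sent β κ P Q) K
  have h2 := (ACF_isComplete hp).realize_sentence_iff (sent β κ P Q) K'
  exact h2.2 (h1.1 h)

/-- transfer from infinitely many prime characteristics to characteristic `0` -/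
theorem solv_of_primes (h : ∀ M : ℕ, ∃ p, M ≤ p ∧ ∃ hp : p.Prime,
    haveI : Fact p.Prime := ⟨hp⟩; Solv β κ P Q (AlgebraicClosure (ZMod p)))
    (K : Type) [Field K] [IsAlgClosed K] [CharZero K] :
    Solv β κ P Q K := by
  let _ := compatibleRingOfRing K
  rw [← realize_sent]
  have : CharP K 0 := CharP.ofCharZero K
  have h2 := (ACF_isComplete (p := 0) (Or.inr rfl)).realize_sentence_iff (sent β κ P Q) K
  rw [h2, ACF_zero_realize_iff_infinite_ACF_prime_realize]
  have h3 : ∀ p : Nat.Primes, (haveI : Fact (p : ℕ).Prime := ⟨p.2⟩;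
      Solv β κ P Q (AlgebraicClosure (ZMod p))) → Theory.ACF p ⊨ᵇ sent β κ P Q := by
    intro p hp
    have : Fact (p : ℕ).Prime := ⟨p.2⟩
    let _ := compatibleRingOfRing (AlgebraicClosure (ZMod p))
    rw [← realize_sent] at hp
    exact ((ACF_isComplete (Or.inl p.2)).realize_sentence_iff (sent β κ P Q) _).1 hp
  intro hfin
  obtain ⟨M, hM⟩ : ∃ M, ∀ p ∈ {p : Nat.Primes | Theory.ACF p ⊨ᵇ sent β κ P Q}, (p : ℕ) ≤ M := by
    obtain ⟨M, hM⟩ := (hfin.image fun p : Nat.Primes => (p : ℕ)).bddAbove
    exact ⟨M, fun p hp => hM ⟨p, hp, rfl⟩⟩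
  obtain ⟨p, hp1, hp2, hp3⟩ := h (M + 1)
  have h4 := hM ⟨p, hp2⟩ (h3 ⟨p, hp2⟩ hp3)
  change p ≤ M at h4
  omega

end

end Pool.Agent.V5helper31.UB
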