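import Pool.Agent.V5helper31.UB.K0

/-!
# Uniform bounds for the negative `K`-group `K_{-1}`
-/

set_option autoImplicit false
set_option linter.unusedSectionVars false

namespace Pool.Agent.V5helper31.UB

open Filter MonoidAlgebra
open scoped Pointwise

universe u v

section defs

variable {k : Type u} [Ring k] {G : Type v} [Group G] {n : ℕ}

/-- the group ring of `ℤ × G`, which is `k[G][t, t⁻¹]` -/
abbrev LG (k : Type u) [Semiring k] (G : Type v) : Type (max u v) :=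
  MonoidAlgebra k (Multiplicative ℤ × G)

/-- at most `s` terms in every entry, and exponents of `t` between `-s` and `s` -/
def Cx {ι κ : Type*} (s : ℕ) (A : Matrix ι κ (LG k G)) : Prop :=
  Terms s A ∧ ∀ p ∈ occ A, |Multiplicative.toAdd p.1| ≤ s

/-- the module `k[G][t, t⁻¹]^n e` is, up to a free summand, isomorphic to the sum of a module which
comes from `k[G][t]` and one which comes from `k[G][t⁻¹]` -/
def Split (e : Matrix (Fin n) (Fin n) (LG k G)) : Prop :=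
  ∃ (r a b : ℕ) (g : Matrix (Fin a) (Fin a) (LG k G)) (h : Matrix (Fin b) (Fin b) (LG k G))
    (x : Matrix (Fin n ⊕ Fin r) (Fin a ⊕ Fin b) (LG k G))
    (y : Matrix (Fin a ⊕ Fin b) (Fin n ⊕ Fin r) (LG k G)),
    g * g = g ∧ h * h = h ∧
    x * y = Matrix.fromBlocks e 0 0 1 ∧ y * x = Matrix.fromBlocks g 0 0 h ∧
    (∀ p ∈ occ g, 0 ≤ Multiplicative.toAdd p.1) ∧ ∀ p ∈ occ h, Multiplicative.toAdd p.1 ≤ 0

/-- the monomials of degree at most `N` with group elements in a ball -/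
def box (S : Set G) (N : ℕ) : Set (Multiplicative ℤ × G) :=
  {p | |Multiplicative.toAdd p.1| ≤ N ∧ p.2 ∈ ball S N}

/-- the same with matrices of bounded size and bounded support -/
def SplitIn (N : ℕ) (S : Set G) (e : Matrix (Fin n) (Fin n) (LG k G)) : Prop :=
  ∃ r ≤ N, ∃ a ≤ N, ∃ b ≤ N,
    ∃ (g : Matrix (Fin a) (Fin a) (LG k G)) (h : Matrix (Fin b) (Fin b) (LG k G))
    (x : Matrix (Fin n ⊕ Fin r) (Fin a ⊕ Fin b) (LG k G))
    (y : Matrix (Fin a ⊕ Fin b) (Fin n ⊕ Fin r) (LG k G)),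
    (g * g = g ∧ h * h = h ∧
    x * y = Matrix.fromBlocks e 0 0 1 ∧ y * x = Matrix.fromBlocks g 0 0 h) ∧
    ((∀ p ∈ occ g, 0 ≤ Multiplicative.toAdd p.1) ∧ ∀ p ∈ occ h, Multiplicative.toAdd p.1 ≤ 0) ∧
    occ g ⊆ box S N ∧ occ h ⊆ box S N ∧ occ x ⊆ box S N ∧ occ y ⊆ box S N

lemma box_mono {S : Set G} {M N : ℕ} (h : M ≤ N) : box S M ⊆ box S N := by
  rintro p ⟨h1, h2⟩
  exact ⟨h1.trans (by exact_mod_cast h), ball_mono h h2⟩

lemma box_mono_left {S T : Set G} (h : S ⊆ insert 1 T) (N : ℕ) : box S N ⊆ box T N := by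
  rintro p ⟨h1, h2⟩
  exact ⟨h1, ball_mono_left h N h2⟩

lemma SplitIn.mono {M N : ℕ} (hMN : M ≤ N) {S : Set G}
    {e : Matrix (Fin n) (Fin n) (LG k G)} (he : SplitIn M S e) : SplitIn N S e := by
  obtain ⟨r, hr, a, ha, b, hb, g, h, x, y, h1, h2, h3, h4, h5, h6⟩ := he
  exact ⟨r, hr.trans hMN, a, ha.trans hMN, b, hb.trans hMN, g, h, x, y, h1, h2,
    h3.trans (box_mono hMN), h4.trans (box_mono hMN), h5.trans (box_mono hMN),
    h6.trans (box_mono hMN)⟩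

lemma SplitIn.mono_left {N : ℕ} {S T : Set G} (hST : S ⊆ insert 1 T)
    {e : Matrix (Fin n) (Fin n) (LG k G)} (he : SplitIn N S e) : SplitIn N T e := by
  obtain ⟨r, hr, a, ha, b, hb, g, h, x, y, h1, h2, h3, h4, h5, h6⟩ := he
  exact ⟨r, hr, a, ha, b, hb, g, h, x, y, h1, h2,
    h3.trans (box_mono_left hST N), h4.trans (box_mono_left hST N),
    h5.trans (box_mono_left hST N), h6.trans (box_mono_left hST N)⟩

lemma SplitIn.split {N : ℕ} {S : Set G}
    {e : Matrix (Fin n) (Fin n) (LG k G)} (he : SplitIn N S e) : Split e := by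
  obtain ⟨r, hr, a, ha, b, hb, g, h, x, y, ⟨h1, h2, h3, h4⟩, ⟨h5, h6⟩, _⟩ := he
  exact ⟨r, a, b, g, h, x, y, h1, h2, h3, h4, h5, h6⟩

end defs

section push

variable {Γ G : Type v} [Group Γ] [Group G]

/-- the map of `ℤ × Γ` -/
abbrev zm (ψ : Γ →* G) : Multiplicative ℤ × Γ →* Multiplicative ℤ × G :=
  MonoidHom.prodMap (MonoidHom.id _) ψ

lemma image_box (ψ : Γ →* G) (S : Set Γ) (N : ℕ) : zm ψ '' box S N ⊆ box (ψ '' S) N := by
  rintro _ ⟨p, ⟨h1, h2⟩, rfl⟩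
  exact ⟨h1, image_ball ψ S N ⟨p.2, h2, rfl⟩⟩

lemma occ_push_box {k : Type u} [Semiring k] {ι κ : Type*} (ψ : Γ →* G) {S : Set Γ} {N : ℕ}
    {A : Matrix ι κ (LG k Γ)} (h : occ A ⊆ box S N) :
    occ (A.map (MonoidAlgebra.mapDomainRingHom k (zm ψ))) ⊆ box (ψ '' S) N :=
  (occ_map_group (zm ψ) A).trans ((Set.image_mono h).trans (image_box ψ S N))

lemma map_blocks2 {R R' : Type*} [Ring R] [Ring R'] {a b : ℕ} (f : R →+* R')
    (g : Matrix (Fin a) (Fin a) R) (h : Matrix (Fin b) (Fin b) R) :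
    (Matrix.fromBlocks g 0 0 h).map f = Matrix.fromBlocks (g.map f) 0 0 (h.map f) := by
  rw [Matrix.fromBlocks_map, Matrix.map_zero f (map_zero f), Matrix.map_zero f (map_zero f)]

lemma SplitIn.push {k : Type u} [CommRing k] {n : ℕ}
    (ψ : Γ →* G) {N : ℕ} {S : Set Γ} {e : Matrix (Fin n) (Fin n) (LG k Γ)}
    (he : SplitIn N S e) :
    SplitIn N (ψ '' S) (e.map (MonoidAlgebra.mapDomainRingHom k (zm ψ))) := by
  obtain ⟨r, hr, a, ha, b, hb, g, h, x, y, ⟨h1, h2, h3, h4⟩, ⟨h5, h6⟩, h7, h8, h9, h10⟩ := he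
  refine ⟨r, hr, a, ha, b, hb, g.map (MonoidAlgebra.mapDomainRingHom k (zm ψ)),
    h.map (MonoidAlgebra.mapDomainRingHom k (zm ψ)),
    x.map (MonoidAlgebra.mapDomainRingHom k (zm ψ)),
    y.map (MonoidAlgebra.mapDomainRingHom k (zm ψ)), ⟨?_, ?_, ?_, ?_⟩, ⟨?_, ?_⟩,
    occ_push_box ψ h7, occ_push_box ψ h8, occ_push_box ψ h9, occ_push_box ψ h10⟩
  · rw [← Matrix.map_mul, h1]
  · rw [← Matrix.map_mul, h2]
  · rw [← Matrix.map_mul, h3, map_blocks]
  · rw [← Matrix.map_mul, h4, map_blocks2]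
  · intro p hp
    obtain ⟨q, hq, rfl⟩ := occ_map_group (zm ψ) g hp
    exact h5 q hq
  · intro p hp
    obtain ⟨q, hq, rfl⟩ := occ_map_group (zm ψ) h hp
    exact h6 q hq

end push

section los

variable {k : ℕ → Type u} [∀ j, Field (k j)] {Γ : Type u} [Group Γ] {n : ℕ}

lemma SplitIn.los {N : ℕ} {S : Set Γ} (E : Matrix (Fin n) (Fin n) (LG (∀ j, k j) Γ))
    (hE : SplitIn N S (E.map (MonoidAlgebra.mapRingHom _ (pr k)))) :
    ∀ᶠ j in (hyperfilter ℕ : Filter ℕ),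
      SplitIn N S (E.map (MonoidAlgebra.mapRingHom _ (Pi.evalRingHom k j))) := by
  obtain ⟨r, hr, a, ha, b, hb, g', h', x', y', ⟨h1, h2, h3, h4⟩, ⟨h5, h6⟩, h7, h8, h9, h10⟩ := hE
  obtain ⟨g, hg, hgs⟩ := mat_lift g'
  obtain ⟨h, hh, hhs⟩ := mat_lift h'
  obtain ⟨x, hx, hxs⟩ := mat_lift x'
  obtain ⟨y, hy, hys⟩ := mat_lift y'
  have e1 := eq_of_los (g * g) g (by rw [Matrix.map_mul, hg, h1])
  have e2 := eq_of_los (h * h) h (by rw [Matrix.map_mul, hh, h2])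
  have e3 := eq_of_los (x * y) (Matrix.fromBlocks E 0 0 1) (by
    rw [Matrix.map_mul, hx, hy, h3, map_blocks])
  have e4 := eq_of_los (y * x) (Matrix.fromBlocks g 0 0 h) (by
    rw [Matrix.map_mul, hx, hy, h4, map_blocks2, hg, hh])
  filter_upwards [e1, e2, e3, e4] with j f1 f2 f3 f4
  refine ⟨r, hr, a, ha, b, hb, g.map (MonoidAlgebra.mapRingHom _ (Pi.evalRingHom k j)),
    h.map (MonoidAlgebra.mapRingHom _ (Pi.evalRingHom k j)),
    x.map (MonoidAlgebra.mapRingHom _ (Pi.evalRingHom k j)),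
    y.map (MonoidAlgebra.mapRingHom _ (Pi.evalRingHom k j)), ⟨?_, ?_, ?_, ?_⟩, ⟨?_, ?_⟩,
    ?_, ?_, ?_, ?_⟩
  · rw [← Matrix.map_mul, f1]
  · rw [← Matrix.map_mul, f2]
  · rw [← Matrix.map_mul, f3, map_blocks]
  · rw [← Matrix.map_mul, f4, map_blocks2]
  · exact fun p hp => h5 p (occ_lift hgs (occ_map_ring _ g hp))
  · exact fun p hp => h6 p (occ_lift hhs (occ_map_ring _ h hp))
  · exact (occ_map_ring _ g).trans ((occ_lift hgs).trans h7)
  · exact (occ_map_ring _ h).trans ((occ_lift hhs).trans h8)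
  · exact (occ_map_ring _ x).trans ((occ_lift hxs).trans h9)
  · exact (occ_map_ring _ y).trans ((occ_lift hys).trans h10)

end los

section exists_in

variable {k : Type u} [Ring k] {Γ L : Type u} [Group Γ] {n : ℕ}

lemma exists_box (q : FreeGroup L →* Γ) (hq : Function.Surjective q)
    (T : Set (Multiplicative ℤ × Γ)) (hT : T.Finite) :
    ∃ N, T ⊆ box (Set.range fun l => q (FreeGroup.of l)) N := by
  obtain ⟨N, hN⟩ := exists_ball_finite q hq _ (hT.image Prod.snd)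
  obtain ⟨M, hM⟩ := (hT.image fun p => (Multiplicative.toAdd p.1).natAbs).bddAbove
  refine ⟨N + M, fun p hp => ⟨?_, ball_mono (by omega) (hN ⟨p, hp, rfl⟩)⟩⟩
  have h1 : (Multiplicative.toAdd p.1).natAbs ≤ M := hM ⟨p, hp, rfl⟩
  rw [Int.abs_eq_natAbs]
  omega

lemma Split.exists_in (q : FreeGroup L →* Γ) (hq : Function.Surjective q)
    {e : Matrix (Fin n) (Fin n) (LG k Γ)} (he : Split e) :
    ∃ N, SplitIn N (Set.range fun l => q (FreeGroup.of l)) e := by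
  obtain ⟨r, a, b, g, h, x, y, h1, h2, h3, h4, h5, h6⟩ := he
  obtain ⟨N1, hN1⟩ := exists_box q hq _ (occ_finite g)
  obtain ⟨N2, hN2⟩ := exists_box q hq _ (occ_finite h)
  obtain ⟨N3, hN3⟩ := exists_box q hq _ (occ_finite x)
  obtain ⟨N4, hN4⟩ := exists_box q hq _ (occ_finite y)
  exact ⟨r + a + b + N1 + N2 + N3 + N4, r, by omega, a, by omega, b, by omega, g, h, x, y,
    ⟨h1, h2, h3, h4⟩, ⟨h5, h6⟩, hN1.trans (box_mono (by omega)),
    hN2.trans (box_mono (by omega)), hN3.trans (box_mono (by omega)),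
    hN4.trans (box_mono (by omega))⟩

end exists_in

end Pool.Agent.V5helper31.UB
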