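import Pool.Agent.V5helper31.UB.NegSys
import Pool.Agent.V5helper31.UB.Acf

/-!
# Splittings of bounded size as a first-order condition on the coefficients
-/

set_option autoImplicit false
set_option linter.unusedSectionVars false

namespace Pool.Agent.V5helper31.UB

open Filter MonoidAlgebra
open scoped Pointwise

section mk

variable {ι κ Γ : Type} [Group Γ] (T : Set Γ) [Fintype T]

/-- the matrix with given coefficients at the elements of `T` -/
noncomputable def mkM {K : Type} [CommRing K] (w : ι × κ × T → K) :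
    Matrix ι κ (MonoidAlgebra K Γ) :=
  Matrix.of fun i j => ∑ p : T, MonoidAlgebra.single (p : Γ) (w (i, j, p))

lemma mkM_map {K K' : Type} [CommRing K] [CommRing K'] (f : K →+* K') (w : ι × κ × T → K) :
    (mkM T w).map (MonoidAlgebra.mapRingHom Γ f) = mkM T fun p => f (w p) := by
  ext1 i j
  simp [mkM, Matrix.map_apply]

open scoped Classical in
lemma coeff_mkM {K : Type} [CommRing K] (w : ι × κ × T → K) (i : ι) (j : κ) (g : Γ) :
    (mkM T w i j).coeff g = ∑ p : T, if (p : Γ) = g then w (i, j, p) else 0 := by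
  have h1 : (mkM T w i j).coeff g =
      ∑ p : T, (MonoidAlgebra.single (p : Γ) (w (i, j, p))).coeff g := by
    simp [mkM]
  rw [h1]
  refine Finset.sum_congr rfl fun p _ => ?_
  rw [MonoidAlgebra.coeff_single, Finsupp.single_apply]

lemma occ_mkM {K : Type} [CommRing K] (w : ι × κ × T → K) : occ (mkM T w) ⊆ T := by
  rintro g ⟨i, j, h⟩
  rw [coeff_mkM] at h
  obtain ⟨p, _, hp⟩ := Finset.exists_ne_zero_of_sum_ne_zero h
  by_cases h1 : (p : Γ) = g
  · rw [← h1]
    exact p.2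
  · rw [if_neg h1] at hp
    exact absurd rfl hp

lemma exists_mkM {K : Type} [CommRing K] (X : Matrix ι κ (MonoidAlgebra K Γ)) (hX : occ X ⊆ T) :
    ∃ w : ι × κ × T → K, mkM T w = X := by
  classical
  refine ⟨fun p => (X p.1 p.2.1).coeff p.2.2, ?_⟩
  ext i j g
  rw [coeff_mkM]
  by_cases hg : g ∈ T
  · rw [Finset.sum_eq_single (⟨g, hg⟩ : T)]
    · rw [if_pos rfl]
    · intro p _ hp
      rw [if_neg]
      intro h
      exact hp (Subtype.ext h)
    · intro h
      exact absurd (Finset.mem_univ _) h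
  · have h1 : (X i j).coeff g = 0 := by
      by_contra h
      exact hg (hX ⟨i, j, h⟩)
    rw [h1]
    refine Finset.sum_eq_zero fun p _ => ?_
    rw [if_neg]
    intro h
    exact hg (h ▸ p.2)

end mk

lemma elim_mat {ι κ Γ R : Type} [Finite ι] [Finite κ] [Group Γ] [CommRing R]
    (Z : Matrix ι κ (MonoidAlgebra R Γ)) :
    ∃ (Y : Type) (_ : Finite Y) (Q : Y → R), ∀ (K : Type) [CommRing K] (f : R →+* K),
      (∀ q, f (Q q) = 0) ↔ Z.map (MonoidAlgebra.mapRingHom Γ f) = 0 := by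
  classical
  refine ⟨Σ p : ι × κ, (Z p.1 p.2).coeff.support, inferInstance,
    fun q => (Z q.1.1 q.1.2).coeff q.2, fun K _ f => ⟨fun h => ?_, fun h => ?_⟩⟩
  · ext i j g
    rw [Matrix.map_apply]
    have h1 : (MonoidAlgebra.mapRingHom Γ f (Z i j)).coeff g = f ((Z i j).coeff g) := by simp
    rw [h1]
    by_cases hg : g ∈ (Z i j).coeff.support
    · rw [h ⟨(i, j), ⟨g, hg⟩⟩]
      rfl
    · rw [Finsupp.notMem_support_iff.1 hg, map_zero]
      rfl
  · rintro ⟨⟨i, j⟩, ⟨g, hg⟩⟩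
    have h1 : (MonoidAlgebra.mapRingHom Γ f (Z i j)).coeff g = f ((Z i j).coeff g) := by simp
    change f ((Z i j).coeff g) = 0
    rw [← h1]
    have h2 := congrFun (congrFun h i) j
    rw [Matrix.map_apply] at h2
    rw [h2]
    rfl

section

variable {k : Type} [Ring k] {G : Type} [Group G] {n : ℕ}

/-- the splitting with matrices of fixed size -/
def SplitAt (N : ℕ) (S : Set G) (r a b : ℕ) (e : Matrix (Fin n) (Fin n) (LG k G)) : Prop :=
    ∃ (g : Matrix (Fin a) (Fin a) (LG k G)) (h : Matrix (Fin b) (Fin b) (LG k G))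
    (x : Matrix (Fin n ⊕ Fin r) (Fin a ⊕ Fin b) (LG k G))
    (y : Matrix (Fin a ⊕ Fin b) (Fin n ⊕ Fin r) (LG k G)),
    (g * g = g ∧ h * h = h ∧
    x * y = Matrix.fromBlocks e 0 0 1 ∧ y * x = Matrix.fromBlocks g 0 0 h) ∧
    ((∀ p ∈ occ g, 0 ≤ Multiplicative.toAdd p.1) ∧ ∀ p ∈ occ h, Multiplicative.toAdd p.1 ≤ 0) ∧
    occ g ⊆ box S N ∧ occ h ⊆ box S N ∧ occ x ⊆ box S N ∧ occ y ⊆ box S N

lemma splitIn_iff (N : ℕ) (S : Set G) (e : Matrix (Fin n) (Fin n) (LG k G)) :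
    SplitIn N S e ↔ ∃ p : Fin (N + 1) × Fin (N + 1) × Fin (N + 1),
      SplitAt N S p.1 p.2.1 p.2.2 e := by
  constructor
  · rintro ⟨r, hr, a, ha, b, hb, h⟩
    exact ⟨(⟨r, by omega⟩, ⟨a, by omega⟩, ⟨b, by omega⟩), h⟩
  · rintro ⟨⟨r, a, b⟩, h⟩
    exact ⟨r, by omega, a, by omega, b, by omega, h⟩

lemma box_finite {S : Set G} (hS : S.Finite) (N : ℕ) : (box S N).Finite := by
  have h1 : (ball S N).Finite := by
    unfold ball
    have h0 : (insert 1 (S ∪ S⁻¹)).Finite := (hS.union hS.inv).insert 1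
    induction N with
    | zero => simp
    | succ N ih =>
      rw [pow_succ]
      exact ih.mul h0
  refine ((Set.finite_Icc (-(N : ℤ)) N).image Multiplicative.ofAdd |>.prod h1).subset ?_
  rintro ⟨a, g⟩ ⟨h2, h3⟩
  exact ⟨⟨Multiplicative.toAdd a, abs_le.1 h2, rfl⟩, h3⟩

end

section enc

variable {L : Type} [Finite L] {n s : ℕ} (d : Fin n → Fin n → Fin s → ℤ)
  (ℓ : Fin n → Fin n → Fin s → L) {G : Type} [Group G] (φ : FreeGroup L →* G)

theorem exists_enc_at (N r a b : ℕ) : ∃ (β Y : Type) (_ : Finite β) (_ : Finite Y)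
    (Q : Y → FreeCommRing (L ⊕ β)), ∀ (K : Type) [Field K] (c : L → K),
      (∃ w : β → K, ∀ q, FreeCommRing.lift (Sum.elim c w) (Q q) = 0) ↔
        SplitAt N (Set.range fun l => φ (FreeGroup.of l)) r a b (ZG d ℓ K φ c) := by
  classical
  let S : Set G := Set.range fun l => φ (FreeGroup.of l)
  have hfin : (box S N).Finite := box_finite (Set.finite_range _) N
  let T : Set (Multiplicative ℤ × G) := box S N
  let T1 : Set (Multiplicative ℤ × G) := {p ∈ box S N | 0 ≤ Multiplicative.toAdd p.1}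
  let T2 : Set (Multiplicative ℤ × G) := {p ∈ box S N | Multiplicative.toAdd p.1 ≤ 0}
  have : Fintype T := hfin.fintype
  have : Fintype T1 := (hfin.subset (Set.sep_subset _ _)).fintype
  have : Fintype T2 := (hfin.subset (Set.sep_subset _ _)).fintype
  let β1 := Fin a × Fin a × T1
  let β2 := Fin b × Fin b × T2
  let β3 := (Fin n ⊕ Fin r) × (Fin a ⊕ Fin b) × T
  let β4 := (Fin a ⊕ Fin b) × (Fin n ⊕ Fin r) × T
  let β := β1 ⊕ β2 ⊕ β3 ⊕ β4
  let R := FreeCommRing (L ⊕ β)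
  let e1 : Matrix (Fin n) (Fin n) (LG R G) := ZG d ℓ R φ fun l => FreeCommRing.of (Sum.inl l)
  let g1 : Matrix (Fin a) (Fin a) (LG R G) :=
    mkM T1 fun p => FreeCommRing.of (Sum.inr (Sum.inl p))
  let h1 : Matrix (Fin b) (Fin b) (LG R G) :=
    mkM T2 fun p => FreeCommRing.of (Sum.inr (Sum.inr (Sum.inl p)))
  let x1 : Matrix (Fin n ⊕ Fin r) (Fin a ⊕ Fin b) (LG R G) :=
    mkM T fun p => FreeCommRing.of (Sum.inr (Sum.inr (Sum.inr (Sum.inl p))))
  let y1 : Matrix (Fin a ⊕ Fin b) (Fin n ⊕ Fin r) (LG R G) :=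
    mkM T fun p => FreeCommRing.of (Sum.inr (Sum.inr (Sum.inr (Sum.inr p))))
  obtain ⟨Y1, _, Q1, hQ1⟩ := elim_mat (g1 * g1 - g1)
  obtain ⟨Y2, _, Q2, hQ2⟩ := elim_mat (h1 * h1 - h1)
  obtain ⟨Y3, _, Q3, hQ3⟩ := elim_mat (x1 * y1 - Matrix.fromBlocks e1 0 0 1)
  obtain ⟨Y4, _, Q4, hQ4⟩ := elim_mat (y1 * x1 - Matrix.fromBlocks g1 0 0 h1)
  refine ⟨β, Y1 ⊕ Y2 ⊕ Y3 ⊕ Y4, inferInstance, inferInstance,
    Sum.elim Q1 (Sum.elim Q2 (Sum.elim Q3 Q4)), fun K _ c => ?_⟩
  have key : ∀ w : β → K,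
      (∀ q, FreeCommRing.lift (Sum.elim c w)
        (Sum.elim Q1 (Sum.elim Q2 (Sum.elim Q3 Q4)) q) = 0) ↔
      (let g := mkM T1 fun p => w (Sum.inl p)
       let h := mkM T2 fun p => w (Sum.inr (Sum.inl p))
       let x := mkM T fun p => w (Sum.inr (Sum.inr (Sum.inl p)))
       let y := mkM T fun p => w (Sum.inr (Sum.inr (Sum.inr p)))
       g * g = g ∧ h * h = h ∧
       x * y = Matrix.fromBlocks (ZG d ℓ K φ c) 0 0 1 ∧ y * x = Matrix.fromBlocks g 0 0 h) := by
    intro w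
    have he : e1.map (MonoidAlgebra.mapRingHom _ (FreeCommRing.lift (Sum.elim c w))) =
        ZG d ℓ K φ c := by
      rw [ZG_map_ring]
      exact congrArg _ (funext fun l => FreeCommRing.lift_of _ _)
    have hg : g1.map (MonoidAlgebra.mapRingHom _ (FreeCommRing.lift (Sum.elim c w))) =
        mkM T1 fun p => w (Sum.inl p) := by
      rw [mkM_map]
      exact congrArg _ (funext fun l => FreeCommRing.lift_of _ _)
    have hh : h1.map (MonoidAlgebra.mapRingHom _ (FreeCommRing.lift (Sum.elim c w))) =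
        mkM T2 fun p => w (Sum.inr (Sum.inl p)) := by
      rw [mkM_map]
      exact congrArg _ (funext fun l => FreeCommRing.lift_of _ _)
    have hx : x1.map (MonoidAlgebra.mapRingHom _ (FreeCommRing.lift (Sum.elim c w))) =
        mkM T fun p => w (Sum.inr (Sum.inr (Sum.inl p))) := by
      rw [mkM_map]
      exact congrArg _ (funext fun l => FreeCommRing.lift_of _ _)
    have hy : y1.map (MonoidAlgebra.mapRingHom _ (FreeCommRing.lift (Sum.elim c w))) =
        mkM T fun p => w (Sum.inr (Sum.inr (Sum.inr p))) := by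
      rw [mkM_map]
      exact congrArg _ (funext fun l => FreeCommRing.lift_of _ _)
    simp only [Sum.forall, Sum.elim_inl, Sum.elim_inr]
    rw [hQ1, hQ2, hQ3, hQ4, Matrix.map_sub _ (map_sub _), Matrix.map_sub _ (map_sub _),
      Matrix.map_sub _ (map_sub _), Matrix.map_sub _ (map_sub _), Matrix.map_mul,
      Matrix.map_mul, Matrix.map_mul, Matrix.map_mul, map_blocks, map_blocks2, he, hg, hh, hx,
      hy, sub_eq_zero, sub_eq_zero, sub_eq_zero, sub_eq_zero]
  constructor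
  · rintro ⟨w, hw⟩
    obtain ⟨h1, h2, h3, h4⟩ := (key w).1 hw
    refine ⟨_, _, _, _, ⟨h1, h2, h3, h4⟩, ⟨?_, ?_⟩, ?_, ?_, ?_, ?_⟩
    · exact fun p hp => (occ_mkM T1 _ hp).2
    · exact fun p hp => (occ_mkM T2 _ hp).2
    · exact fun p hp => (occ_mkM T1 _ hp).1
    · exact fun p hp => (occ_mkM T2 _ hp).1
    · exact occ_mkM T _
    · exact occ_mkM T _
  · rintro ⟨g, h, x, y, ⟨h1, h2, h3, h4⟩, ⟨h5, h6⟩, h7, h8, h9, h10⟩
    obtain ⟨w1, rfl⟩ := exists_mkM T1 g fun p hp => ⟨h7 hp, h5 p hp⟩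
    obtain ⟨w2, rfl⟩ := exists_mkM T2 h fun p hp => ⟨h8 hp, h6 p hp⟩
    obtain ⟨w3, rfl⟩ := exists_mkM T x h9
    obtain ⟨w4, rfl⟩ := exists_mkM T y h10
    exact ⟨Sum.elim w1 (Sum.elim w2 (Sum.elim w3 w4)), (key _).2 ⟨h1, h2, h3, h4⟩⟩

theorem exists_enc (N : ℕ) : ∃ (I J : Type) (_ : Finite I) (_ : Finite J) (β Y : J → Type)
    (_ : ∀ j, Finite (β j)) (_ : ∀ j, Finite (Y j)) (P : I → FreeCommRing L)
    (Q : ∀ j, Y j → FreeCommRing (L ⊕ β j)), ∀ (K : Type) [Field K],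
      Solv β Y P Q K ↔ ∀ c : L → K, ZG d ℓ K φ c * ZG d ℓ K φ c = ZG d ℓ K φ c →
        SplitIn N (Set.range fun l => φ (FreeGroup.of l)) (ZG d ℓ K φ c) := by
  obtain ⟨I, _, P, hP⟩ := elim_mat (ZG d ℓ (FreeCommRing L) φ FreeCommRing.of *
    ZG d ℓ (FreeCommRing L) φ FreeCommRing.of - ZG d ℓ (FreeCommRing L) φ FreeCommRing.of)
  have h := fun p : Fin (N + 1) × Fin (N + 1) × Fin (N + 1) =>
    exists_enc_at d ℓ φ N p.1 p.2.1 p.2.2
  choose β Y hβ hY Q hQ using h
  refine ⟨I, _, inferInstance, inferInstance, β, Y, hβ, hY, P, Q, fun K _ => ?_⟩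
  unfold Solv
  refine forall_congr' fun c => ?_
  have h1 : (ZG d ℓ (FreeCommRing L) φ FreeCommRing.of).map
      (MonoidAlgebra.mapRingHom _ (FreeCommRing.lift c)) = ZG d ℓ K φ c := by
    rw [ZG_map_ring]
    exact congrArg _ (funext fun l => FreeCommRing.lift_of _ _)
  rw [hP, Matrix.map_sub _ (map_sub _), Matrix.map_mul, h1, sub_eq_zero, splitIn_iff]
  refine imp_congr Iff.rfl ?_
  refine exists_congr fun p => ?_
  exact hQ p K c

end enc

section transfer

variable {n : ℕ}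

/-- all idempotent matrices of complexity at most `s` split within `N` -/
def Good (C : ∀ (G : Type) [Group G], Prop) (n s N : ℕ) (k : Type) [Field k] : Prop :=
  ∀ (G : Type) [Group G], C G → ∀ e : Matrix (Fin n) (Fin n) (LG k G), e * e = e → Cx s e →
    SplitIn N (Prod.snd '' occ e) e

lemma snd_occ_ZG {s : ℕ} (d : Fin n → Fin n → Fin s → ℤ) {K : Type} [Field K] {G : Type}
    [Group G] (φ : FreeGroup (LT.{0} n s) →* G) (c : LT.{0} n s → K) :
    Prod.snd '' occ (ZG d (lt n s) K φ c) ⊆ Set.range fun l => φ (FreeGroup.of l) := by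
  classical
  rintro _ ⟨p, ⟨i, j, hp⟩, rfl⟩
  have h1 : (ZG d (lt n s) K φ c i j).coeff p = ∑ t, (MonoidAlgebra.single
    (Multiplicative.ofAdd (d i j t), φ (FreeGroup.of (lt n s i j t)))
      (c (lt n s i j t))).coeff p := by simp [ZG]
  rw [h1] at hp
  obtain ⟨t, _, ht⟩ := Finset.exists_ne_zero_of_sum_ne_zero hp
  rw [MonoidAlgebra.coeff_single, Finsupp.single_apply] at ht
  by_cases h2 : (Multiplicative.ofAdd (d i j t), φ (FreeGroup.of (lt n s i j t))) = p
  · rw [← h2]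
    exact ⟨lt n s i j t, rfl⟩
  · rw [if_neg h2] at ht
    exact absurd rfl ht

lemma cx_ZG {s : ℕ} (d : Fin n → Fin n → Fin s → ℤ) (hd : ∀ i j t, |d i j t| ≤ (s : ℤ))
    {K : Type} [Field K] {G : Type}
    [Group G] (φ : FreeGroup (LT.{0} n s) →* G) (c : LT.{0} n s → K) :
    Cx s (ZG d (lt n s) K φ c) := by
  classical
  have h1 : ∀ i j p, (ZG d (lt n s) K φ c i j).coeff p = ∑ t, (MonoidAlgebra.single
    (Multiplicative.ofAdd (d i j t), φ (FreeGroup.of (lt n s i j t)))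
      (c (lt n s i j t))).coeff p := by
    intro i j p
    simp [ZG]
  have h2 : ∀ i j p, (ZG d (lt n s) K φ c i j).coeff p ≠ 0 → ∃ t,
      (Multiplicative.ofAdd (d i j t), φ (FreeGroup.of (lt n s i j t))) = p := by
    intro i j p hp
    rw [h1] at hp
    obtain ⟨t, _, ht⟩ := Finset.exists_ne_zero_of_sum_ne_zero hp
    rw [MonoidAlgebra.coeff_single, Finsupp.single_apply] at ht
    by_contra hcon
    push Not at hcon
    rw [if_neg (hcon t)] at ht
    exact ht rfl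
  refine ⟨fun i j => ?_, ?_⟩
  · have h3 : (ZG d (lt n s) K φ c i j).coeff.support ⊆ Finset.univ.image fun t : Fin s =>
      (Multiplicative.ofAdd (d i j t), φ (FreeGroup.of (lt n s i j t))) := by
      intro p hp
      obtain ⟨t, ht⟩ := h2 i j p (Finsupp.mem_support_iff.1 hp)
      exact Finset.mem_image.2 ⟨t, Finset.mem_univ _, ht⟩
    refine (Finset.card_le_card h3).trans (Finset.card_image_le.trans ?_)
    simp
  · rintro p ⟨i, j, hp⟩
    obtain ⟨t, rfl⟩ := h2 i j p hp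
    exact hd i j t

lemma good_iff (C : ∀ (G : Type) [Group G], Prop) (n s N : ℕ) (k : Type) [Field k] :
    Good C n s N k ↔ ∀ (G : Type) [Group G], C G → ∀ (d : Fin n → Fin n → Fin s → ℤ),
      (∀ i j t, |d i j t| ≤ (s : ℤ)) → ∀ (φ : FreeGroup (LT.{0} n s) →* G) (c : LT.{0} n s → k),
        ZG d (lt n s) k φ c * ZG d (lt n s) k φ c = ZG d (lt n s) k φ c →
          SplitIn N (Set.range fun l => φ (FreeGroup.of l)) (ZG d (lt n s) k φ c) := by
  constructor
  · intro h G _ hG d hd φ c he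
    exact (h G hG _ he (cx_ZG d hd φ c)).mono_left
      ((snd_occ_ZG d φ c).trans (Set.subset_insert _ _))
  · intro h G _ hG e he hes
    obtain ⟨d, φ, c, hd, rfl, h2⟩ := exists_repr_Z e hes
    exact (h G hG d hd φ c he).mono_left h2

/-- transfer between algebraically closed fields of the same characteristic -/
theorem good_transfer (C : ∀ (G : Type) [Group G], Prop) (n s N : ℕ) (p : ℕ)
    (hp : p.Prime ∨ p = 0) (K K' : Type) [Field K] [Field K']
    [IsAlgClosed K] [IsAlgClosed K'] [CharP K p] [CharP K' p] (h : Good C n s N K) :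
    Good C n s N K' := by
  rw [good_iff] at h ⊢
  intro G _ hG d hd φ
  obtain ⟨I, J, _, _, β, Y, _, _, P, Q, hPQ⟩ := exists_enc d (lt n s) φ N
  rw [← hPQ]
  exact solv_of_closure β Y P Q p hp K K' ((hPQ K).2 (h G hG d hd φ))

/-- transfer from infinitely many prime characteristics -/
theorem good_of_primes (C : ∀ (G : Type) [Group G], Prop) (n s N : ℕ)
    (h : ∀ M : ℕ, ∃ p, M ≤ p ∧ ∃ hp : p.Prime,
      haveI : Fact p.Prime := ⟨hp⟩; Good C n s N (AlgebraicClosure (ZMod p)))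
    (K : Type) [Field K] [IsAlgClosed K] [CharZero K] : Good C n s N K := by
  rw [good_iff]
  intro G _ hG d hd φ
  obtain ⟨I, J, _, _, β, Y, _, _, P, Q, hPQ⟩ := exists_enc d (lt n s) φ N
  rw [← hPQ]
  refine solv_of_primes β Y P Q (fun M => ?_) K
  obtain ⟨p, hp1, hp2, hp3⟩ := h M
  refine ⟨p, hp1, hp2, ?_⟩
  have : Fact p.Prime := ⟨hp2⟩
  rw [good_iff] at hp3
  exact (hPQ _).2 (hp3 G hG d hd φ)

end transfer

end Pool.Agent.V5helper31.UB
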