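import Pool.Agent.V5helper31.UB.Stab
import Pool.Agent.V5helper31.UB.Neg

/-!
# Splittings of idempotent matrices and the negative `K`-groups
-/

set_option autoImplicit false
set_option linter.unusedSectionVars false

namespace Pool.Agent.V5helper31.UB

open Pool.Agent.Y75.NK Matrix CategoryTheory MonoidAlgebra

section qm

variable {A : Type} [Ring A]

/-- the identity matrix -/
def one (r : ℕ) : Idem A := ⟨r, 1, one_mul 1⟩

/-- the complement -/
def co (g : Idem A) : Idem A := ⟨g.n, 1 - g.e, by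
  rw [mul_sub, mul_one, sub_mul, one_mul, g.idem, sub_self, sub_zero]⟩

lemma qm_co (g : Idem A) : qm g + qm (co g) = qm (one g.n : Idem A) := by
  rw [← qm_sum, qm_eq]
  have h1 : Eqv (Matrix.fromBlocks g.e 0 0 (1 - g.e)) (1 : Matrix (Fin g.n) (Fin g.n) A) := by
    refine ⟨Matrix.fromRows g.e (1 - g.e), Matrix.fromCols g.e (1 - g.e), ?_, ?_⟩
    · rw [Matrix.fromRows_mul_fromCols]
      have h2 : g.e * (1 - g.e) = 0 := by rw [mul_sub, mul_one, g.idem, sub_self]
      have h3 : (1 - g.e) * g.e = 0 := by rw [sub_mul, one_mul, g.idem, sub_self]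
      have h4 : (1 - g.e) * (1 - g.e) = 1 - g.e := (co g).idem
      rw [h2, h3, h4, g.idem]
    · rw [Matrix.fromCols_mul_fromRows]
      have h4 : (1 - g.e) * (1 - g.e) = 1 - g.e := (co g).idem
      rw [h4, g.idem, add_sub_cancel]
  exact (Eqv.sum g (co g)).trans h1 (g.sum (co g)).idem (one g.n : Idem A).idem

lemma one_sum (r s : ℕ) : (one r : Idem A).sum (one s) = one (r + s) := by
  unfold one Idem.sum
  congr 1
  rw [Matrix.fromBlocks_one, Matrix.submatrix_one_equiv]

lemma qm_one_add (r s : ℕ) : qm (one r : Idem A) + qm (one s) = qm (one (r + s)) := by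
  rw [← qm_sum, one_sum]

lemma cls_eq_of_qm {e f : Idem A} (h : qm e = qm f) : cls e = cls f := cls_eq (qm_eq.1 h)

lemma cls_eq_qm {e f : Idem A} : cls e = cls f ↔ ∃ g : Idem A, qm e + qm g = qm f + qm g := by
  rw [cls_eq_iff]
  refine exists_congr fun g => ?_
  rw [← qm_sum, ← qm_sum, qm_eq]

/-- stable equality with a free summand -/
lemma cls_eq_one {e f : Idem A} (h : cls e = cls f) :
    ∃ c : ℕ, qm e + qm (one c : Idem A) = qm f + qm (one c) := by
  obtain ⟨g, hg⟩ := cls_eq_qm.1 h
  refine ⟨g.n, ?_⟩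
  rw [← qm_co, ← add_assoc, hg, add_assoc]

end qm

section ring

variable {A B₁ B₂ : Type} [Ring A] [Ring B₁] [Ring B₂] (ρ : B₁ →+* A) (σ : B₂ →+* A)

/-- the splitting of an idempotent matrix -/
def SplitR (e : Idem A) : Prop := ∃ (r : ℕ) (g : Idem B₁) (h : Idem B₂),
  qm e + qm (one r : Idem A) = qm (g.map ρ) + qm (h.map σ)

lemma one_map (r : ℕ) : (one r : Idem B₁).map ρ = one r := by
  unfold one Idem.map
  congr 1
  exact Matrix.map_one _ (map_zero ρ) (map_one ρ)

theorem split_iff :
    (K0.map ρ).range ⊔ (K0.map σ).range = ⊤ ↔ ∀ e : Idem A, SplitR ρ σ e := by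
  constructor
  · intro h e
    have h1 : cls e ∈ (K0.map ρ).range ⊔ (K0.map σ).range := h ▸ AddSubgroup.mem_top _
    obtain ⟨_, ⟨u, rfl⟩, _, ⟨v, rfl⟩, huv⟩ := AddSubgroup.mem_sup.1 h1
    obtain ⟨g1, g2, rfl⟩ := exists_sub u
    obtain ⟨h1, h2, rfl⟩ := exists_sub v
    rw [map_sub, map_sub, K0.map_cls, K0.map_cls, K0.map_cls, K0.map_cls] at huv
    have h3 : cls ((e.sum (g2.map ρ)).sum (h2.map σ)) = cls ((g1.map ρ).sum (h1.map σ)) := by
      rw [cls_sum, cls_sum, cls_sum, ← huv]
      abel
    obtain ⟨c, hc⟩ := cls_eq_one h3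
    rw [qm_sum, qm_sum, qm_sum] at hc
    refine ⟨g2.n + h2.n + c, (g1.sum (co g2)).sum (one c), h1.sum (co h2), ?_⟩
    rw [map_sum_equiv, map_sum_equiv, map_sum_equiv, qm_sum, qm_sum, qm_sum, one_map]
    have h4 : qm (g2.map ρ) + qm ((co g2).map ρ) = qm (one g2.n : Idem A) := by
      have h5 : (co g2).map ρ = co (g2.map ρ) := by
        unfold co Idem.map
        congr 1
        rw [Matrix.map_sub _ (map_sub ρ), Matrix.map_one _ (map_zero ρ) (map_one ρ)]
      rw [h5]
      exact qm_co _
    have h6 : qm (h2.map σ) + qm ((co h2).map σ) = qm (one h2.n : Idem A) := by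
      have h5 : (co h2).map σ = co (h2.map σ) := by
        unfold co Idem.map
        congr 1
        rw [Matrix.map_sub _ (map_sub σ), Matrix.map_one _ (map_zero σ) (map_one σ)]
      rw [h5]
      exact qm_co _
    rw [← qm_one_add, ← qm_one_add, ← h4, ← h6]
    have h7 : qm e + (qm (g2.map ρ) + qm ((co g2).map ρ) +
        (qm (h2.map σ) + qm ((co h2).map σ)) + qm (one c : Idem A)) =
        (qm e + qm (g2.map ρ) + qm (h2.map σ) + qm (one c : Idem A)) +
          (qm ((co g2).map ρ) + qm ((co h2).map σ)) := by abel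
    rw [h7, hc]
    abel
  · intro h
    rw [eq_top_iff]
    rintro x -
    have key : ∀ e : Idem A, cls e ∈ (K0.map ρ).range ⊔ (K0.map σ).range := by
      intro e
      obtain ⟨r, g, h', h1⟩ := h e
      rw [← qm_sum, ← qm_sum] at h1
      have h2 := cls_eq_of_qm h1
      rw [cls_sum, cls_sum] at h2
      have h3 : cls e = K0.map ρ (cls g) - K0.map ρ (cls (one r)) + K0.map σ (cls h') := by
        rw [K0.map_cls, K0.map_cls, K0.map_cls, one_map, eq_sub_of_add_eq h2]
        abel
      rw [h3]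
      exact add_mem (AddSubgroup.mem_sup_left (sub_mem ⟨_, rfl⟩ ⟨_, rfl⟩))
        (AddSubgroup.mem_sup_right ⟨_, rfl⟩)
    obtain ⟨e, f, rfl⟩ := exists_sub x
    exact sub_mem (key e) (key f)

end ring

section lg

variable (k : Type) [Ring k] (G : Type) [Group G]

/-- the isomorphism `k[G][t, t⁻¹] = k[ℤ × G]` -/
noncomputable def kap : MonoidAlgebra (MonoidAlgebra k G) (Multiplicative ℤ) ≃+* LG k G :=
  (MonoidAlgebra.curryRingEquiv (R := k) (M := Multiplicative ℤ) (N := G)).symm

/-- the inclusion of `k[G][t]` for `u = 1` and of `k[G][t⁻¹]` for `u = -1` -/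
noncomputable def rho (u : ℕ →+ ℤ) :
    MonoidAlgebra (MonoidAlgebra k G) (Multiplicative ℕ) →+* LG k G :=
  (kap k G).toRingHom.comp
    (MonoidAlgebra.mapDomainRingHom (MonoidAlgebra k G) (AddMonoidHom.toMultiplicative u))

variable {k G}

lemma rho_single (u : ℕ →+ ℤ) (m : Multiplicative ℕ) (g : G) (c : k) :
    rho k G u (MonoidAlgebra.single m (MonoidAlgebra.single g c)) =
      MonoidAlgebra.single (Multiplicative.ofAdd (u (Multiplicative.toAdd m)), g) c := by
  unfold rho kap
  have h1 : MonoidAlgebra.mapDomainRingHom (MonoidAlgebra k G) (AddMonoidHom.toMultiplicative u)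
      (MonoidAlgebra.single m (MonoidAlgebra.single g c)) =
      MonoidAlgebra.single (Multiplicative.ofAdd (u (Multiplicative.toAdd m)))
        (MonoidAlgebra.single g c) := by
    simp
  rw [RingHom.comp_apply, h1]
  exact MonoidAlgebra.curryRingEquiv_symm_single _ _ _

lemma sum_single_coeff (z : LG k G) :
    z = ∑ p ∈ z.coeff.support, MonoidAlgebra.single p (z.coeff p) := by
  classical
  ext g
  have h5 : (∑ x ∈ z.coeff.support, MonoidAlgebra.single x (z.coeff x)).coeff g =
      ∑ x ∈ z.coeff.support, (MonoidAlgebra.single x (z.coeff x)).coeff g := by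
      simp
  rw [h5]
  simp only [MonoidAlgebra.coeff_single, Finsupp.single_apply]
  rw [Finset.sum_ite_eq' z.coeff.support g]
  by_cases hg : g ∈ z.coeff.support
  · rw [if_pos hg]
  · rw [if_neg hg]
    exact Finsupp.notMem_support_iff.1 hg

/-- the image of `k[G][t]` or `k[G][t⁻¹]` -/
lemma mem_rho (u : ℕ →+ ℤ) (z : LG k G) :
    (∃ z0, rho k G u z0 = z) ↔
      ∀ p, z.coeff p ≠ 0 → ∃ m : ℕ, u m = Multiplicative.toAdd p.1 := by
  classical
  constructor
  · rintro ⟨z0, rfl⟩
    have hadd : ∀ x y : LG k G, (∀ p, x.coeff p ≠ 0 → ∃ m : ℕ, u m = Multiplicative.toAdd p.1) →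
        (∀ p, y.coeff p ≠ 0 → ∃ m : ℕ, u m = Multiplicative.toAdd p.1) →
        ∀ p, (x + y).coeff p ≠ 0 → ∃ m : ℕ, u m = Multiplicative.toAdd p.1 := by
      intro x y hx hy p hp
      by_cases h : x.coeff p = 0
      · refine hy p fun h2 => hp ?_
        simp [h, h2]
      · exact hx p h
    induction z0 using MonoidAlgebra.induction_linear with
    | zero =>
      intro p hp
      simp at hp
    | add x y hx hy =>
      rw [map_add]
      exact hadd _ _ hx hy
    | single m a =>
      induction a using MonoidAlgebra.induction_linear with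
      | zero =>
        intro p hp
        simp at hp
      | add x y hx hy =>
        rw [MonoidAlgebra.single_add, map_add]
        exact hadd _ _ hx hy
      | single g c =>
        intro p hp
        rw [rho_single, MonoidAlgebra.coeff_single, Finsupp.single_apply] at hp
        by_cases h : (Multiplicative.ofAdd (u (Multiplicative.toAdd m)), g) = p
        · exact ⟨Multiplicative.toAdd m, by rw [← h]; rfl⟩
        · rw [if_neg h] at hp
          exact absurd rfl hp
  · intro h
    choose! f hf using h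
    refine ⟨∑ p ∈ z.coeff.support, MonoidAlgebra.single (Multiplicative.ofAdd (f p))
      (MonoidAlgebra.single p.2 (z.coeff p)), ?_⟩
    rw [map_sum]
    conv_rhs => rw [sum_single_coeff z]
    refine Finset.sum_congr rfl fun p hp => ?_
    rw [rho_single]
    have h1 : u (Multiplicative.toAdd (Multiplicative.ofAdd (f p))) = Multiplicative.toAdd p.1 :=
      hf p (Finsupp.mem_support_iff.1 hp)
    rw [h1]
    rfl

lemma rho_injective (u : ℕ →+ ℤ) (hu : Function.Injective u) :
    Function.Injective (rho k G u) := by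
  unfold rho
  intro x y h
  have h1 := (kap k G).injective h
  exact MonoidAlgebra.mapDomain_injective
    (f := AddMonoidHom.toMultiplicative u) (fun a b hab => hu hab) h1

/-- lifting an idempotent matrix -/
lemma lift_rho (u : ℕ →+ ℤ) (hu : Function.Injective u) {n : ℕ}
    (g : Matrix (Fin n) (Fin n) (LG k G)) (hg : g * g = g)
    (h : ∀ p ∈ occ g, ∃ m : ℕ, u m = Multiplicative.toAdd p.1) :
    ∃ g0 : Idem (MonoidAlgebra (MonoidAlgebra k G) (Multiplicative ℕ)),
      g0.map (rho k G u) = ⟨n, g, hg⟩ := by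
  have h1 := fun i j => (mem_rho u (g i j)).2 fun p hp => h p ⟨i, j, hp⟩
  choose f hf using h1
  have h2 : (Matrix.of f).map (rho k G u) = g := by
    ext1 i j
    exact hf i j
  refine ⟨⟨n, Matrix.of f, ?_⟩, ?_⟩
  · have h3 : (Matrix.of f * Matrix.of f).map (rho k G u) = (Matrix.of f).map (rho k G u) := by
      rw [Matrix.map_mul, h2, hg]
    ext1 i j
    exact rho_injective u hu (congrFun (congrFun h3 i) j)
  · unfold Idem.map
    congr 1

/-- the embedding of `ℕ` in `ℤ` -/
abbrev up : ℕ →+ ℤ := Nat.castAddMonoidHom ℤ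

/-- the embedding of `ℕ` in `ℤ` with negative values -/
abbrev dn : ℕ →+ ℤ := -(Nat.castAddMonoidHom ℤ)

lemma up_iff (z : ℤ) : (∃ m : ℕ, up m = z) ↔ 0 ≤ z := by
  constructor
  · rintro ⟨m, rfl⟩
    exact Int.natCast_nonneg m
  · intro h
    exact ⟨z.toNat, Int.toNat_of_nonneg h⟩

lemma dn_iff (z : ℤ) : (∃ m : ℕ, dn m = z) ↔ z ≤ 0 := by
  constructor
  · rintro ⟨m, rfl⟩
    change -(m : ℤ) ≤ 0
    omega
  · intro h
    refine ⟨(-z).toNat, ?_⟩
    change -(((-z).toNat : ℕ) : ℤ) = z
    omega

lemma up_inj : Function.Injective up := by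
  intro a b h
  have h' : (a : ℤ) = b := h
  omega

lemma dn_inj : Function.Injective dn := by
  intro a b h
  have h' : -(a : ℤ) = -b := h
  omega

/-- the two notions of splitting -/
theorem splitR_iff (e : Idem (LG k G)) :
    SplitR (rho k G up) (rho k G dn) e ↔ Split e.e := by
  constructor
  · rintro ⟨r, g, h, heq⟩
    rw [← qm_sum, ← qm_sum, qm_eq] at heq
    have h1 : Eqv (e.sum (one r)).e ((g.map (rho k G up)).sum (h.map (rho k G dn))).e := heq
    have h2 := (Eqv.sum e (one r)).symm.trans h1 (idem_blocks e.idem (one r : Idem (LG k G)).idem)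
      ((g.map (rho k G up)).sum (h.map (rho k G dn))).idem
    have h3 := h2.trans (Eqv.sum (g.map (rho k G up)) (h.map (rho k G dn)))
      (idem_blocks e.idem (one r : Idem (LG k G)).idem)
      (idem_blocks (g.map (rho k G up)).idem (h.map (rho k G dn)).idem)
    obtain ⟨x, y, hxy, hyx⟩ := h3
    refine ⟨r, g.n, h.n, (g.map (rho k G up)).e, (h.map (rho k G dn)).e, x, y,
      (g.map (rho k G up)).idem, (h.map (rho k G dn)).idem, hxy, hyx, ?_, ?_⟩
    · rintro p ⟨i, j, hp⟩
      exact (up_iff _).1 ((mem_rho up _).1 ⟨g.e i j, rfl⟩ p hp)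
    · rintro p ⟨i, j, hp⟩
      exact (dn_iff _).1 ((mem_rho dn _).1 ⟨h.e i j, rfl⟩ p hp)
  · rintro ⟨r, a, b, g, h, x, y, hg, hh, hxy, hyx, hgp, hhp⟩
    obtain ⟨g0, hg0⟩ := lift_rho up up_inj g hg fun p hp => (up_iff _).2 (hgp p hp)
    obtain ⟨h0, hh0⟩ := lift_rho dn dn_inj h hh fun p hp => (dn_iff _).2 (hhp p hp)
    refine ⟨r, g0, h0, ?_⟩
    rw [← qm_sum, ← qm_sum, qm_eq, hg0, hh0]
    have h1 : Eqv (Matrix.fromBlocks e.e 0 0 (1 : Matrix (Fin r) (Fin r) (LG k G)))
      (Matrix.fromBlocks g 0 0 h) := ⟨x, y, hxy, hyx⟩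
    have h2 := (Eqv.sum e (one r)).trans h1 (e.sum (one r)).idem (idem_blocks hg hh)
    exact h2.trans (Eqv.sum ⟨a, g, hg⟩ ⟨b, h, hh⟩).symm (e.sum (one r)).idem
      (Idem.sum ⟨a, g, hg⟩ ⟨b, h, hh⟩).idem

lemma K0_map_bij {R S : Type} [Ring R] [Ring S] (κ : R ≃+* S) :
    Function.Bijective (K0.map κ.toRingHom) := by
  have h1 : (K0.map κ.symm.toRingHom).comp (K0.map κ.toRingHom) = AddMonoidHom.id _ := by
    rw [← K0.map_comp, ← K0.map_id]
    congr 1
    ext x
    exact κ.symm_apply_apply x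
  have h2 : (K0.map κ.toRingHom).comp (K0.map κ.symm.toRingHom) = AddMonoidHom.id _ := by
    rw [← K0.map_comp, ← K0.map_id]
    congr 1
    ext x
    exact κ.apply_symm_apply x
  refine ⟨fun x y h => ?_, fun y => ⟨K0.map κ.symm.toRingHom y, DFunLike.congr_fun h2 y⟩⟩
  have h3 := congrArg (K0.map κ.symm.toRingHom) h
  have h4 : ∀ z, K0.map κ.symm.toRingHom (K0.map κ.toRingHom z) = z := fun z =>
    DFunLike.congr_fun h1 z
  rw [h4, h4] at h3
  exact h3

variable (k G)

/-- `K_{-1}(k[G]) = 0` if and only if all idempotent matrices over `k[ℤ × G]` split -/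
theorem kneg_one_iff : Subsingleton ((Kneg 1).obj (RingCat.of (MonoidAlgebra k G))) ↔
    ∀ (n : ℕ) (e : Matrix (Fin n) (Fin n) (LG k G)), e * e = e → Split e := by
  let pl := MonoidAlgebra.mapDomainRingHom (MonoidAlgebra k G) (AddMonoidHom.toMultiplicative up)
  let mi := MonoidAlgebra.mapDomainRingHom (MonoidAlgebra k G) (AddMonoidHom.toMultiplicative dn)
  have h1 : Subsingleton ((Kneg 1).obj (RingCat.of (MonoidAlgebra k G))) ↔
      (K0.map pl).range ⊔ (K0.map mi).range = ⊤ := by
    constructor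
    · intro h
      rw [eq_top_iff]
      rintro x -
      have h2 : (QuotientAddGroup.mk x : (K0 (MonoidAlgebra (MonoidAlgebra k G)
        (Multiplicative ℤ))) ⧸ ((K0.map pl).range ⊔ (K0.map mi).range)) = 0 :=
        @Subsingleton.elim _ h _ _
      exact (QuotientAddGroup.eq_zero_iff x).1 h2
    · intro h
      refine @subsingleton_of_forall_eq _ ((0 : (K0 (MonoidAlgebra (MonoidAlgebra k G)
        (Multiplicative ℤ))) ⧸ ((K0.map pl).range ⊔ (K0.map mi).range))) ?_
      intro x
      obtain ⟨y, rfl⟩ := QuotientAddGroup.mk'_surjective _ x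
      refine (QuotientAddGroup.eq_zero_iff y).2 ?_
      have h2 : (y : K0 (MonoidAlgebra (MonoidAlgebra k G) (Multiplicative ℤ))) ∈
          (K0.map pl).range ⊔ (K0.map mi).range := by
        rw [h]
        exact AddSubgroup.mem_top _
      exact h2
  have h2 : (K0.map pl).range ⊔ (K0.map mi).range = ⊤ ↔
      (K0.map (rho k G up)).range ⊔ (K0.map (rho k G dn)).range = ⊤ := by
    have h3 : ((K0.map pl).range ⊔ (K0.map mi).range).map (K0.map (kap k G).toRingHom) =
        (K0.map (rho k G up)).range ⊔ (K0.map (rho k G dn)).range := by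
      rw [AddSubgroup.map_sup, AddMonoidHom.map_range, AddMonoidHom.map_range, ← K0.map_comp,
        ← K0.map_comp]
      rfl
    have hb := K0_map_bij (kap k G)
    constructor
    · intro h
      rw [← h3, h, ← AddMonoidHom.range_eq_map]
      exact AddMonoidHom.range_eq_top.2 hb.2
    · intro h
      rw [← h3] at h
      rw [eq_top_iff]
      rintro x -
      have h4 : K0.map (kap k G).toRingHom x ∈
          ((K0.map pl).range ⊔ (K0.map mi).range).map (K0.map (kap k G).toRingHom) := by
        rw [h]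
        exact AddSubgroup.mem_top _
      obtain ⟨y, hy, hxy⟩ := h4
      rw [← hb.1 hxy]
      exact hy
  rw [h1, h2, split_iff]
  constructor
  · intro h n e he
    exact (splitR_iff ⟨n, e, he⟩).1 (h _)
  · intro h e
    exact (splitR_iff e).2 (h e.n e.e e.idem)

end lg

end Pool.Agent.V5helper31.UB
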