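import Pool.Agent.V5helper31.UB.NegK
import Pool.Agent.V5helper31.UB.NegAcf
import Pool.Agent.V5helper31.NU.Main

/-!
# Negative `K`-groups: uniform splittings and change of the field
-/

set_option autoImplicit false
set_option linter.unusedSectionVars false

namespace Pool.Agent.V5helper31.UB

open Filter MonoidAlgebra CategoryTheory Pool.Agent.Y75.NK Polynomial

section ultra

variable (k : ℕ → Type) [∀ j, Field (k j)]

lemma isAlgClosed_UK [∀ j, IsAlgClosed (k j)] : IsAlgClosed (UK k) := by
  refine IsAlgClosed.of_exists_root _ fun p hp hirr => ?_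
  have hdeg : 0 < p.natDegree := natDegree_pos_iff_degree_pos.2 (degree_pos_of_irreducible hirr)
  have hs : Function.Surjective (pr k) := Ideal.Quotient.mk_surjective
  choose σ hσ using hs
  let q : ∀ j, (k j)[X] := fun j => X ^ p.natDegree +
    ∑ i ∈ Finset.range p.natDegree, C (σ (p.coeff i) j) * X ^ i
  have hq : ∀ j, (∑ i ∈ Finset.range p.natDegree, C (σ (p.coeff i) j) * X ^ i).degree <
      (p.natDegree : WithBot ℕ) := by
    intro j
    refine lt_of_le_of_lt (degree_sum_le _ _) ?_
    rw [Finset.sup_lt_iff (WithBot.bot_lt_coe _)]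
    intro i hi
    refine lt_of_le_of_lt (degree_C_mul_X_pow_le _ _) ?_
    exact_mod_cast Finset.mem_range.1 hi
  have hroot : ∀ j, ∃ x : k j, (q j).eval x = 0 := by
    intro j
    refine IsAlgClosed.exists_root (q j) ?_
    have h1 : (q j).degree = p.natDegree := by
      have h2 : (∑ i ∈ Finset.range p.natDegree, C (σ (p.coeff i) j) * X ^ i).degree <
          (X ^ p.natDegree : (k j)[X]).degree := by
        rw [degree_X_pow]
        exact hq j
      change (X ^ p.natDegree + _).degree = _
      rw [degree_add_eq_left_of_degree_lt h2, degree_X_pow]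
    rw [h1]
    exact_mod_cast hdeg.ne'
  choose x hx using hroot
  refine ⟨pr k x, ?_⟩
  have h2 : p = X ^ p.natDegree + ∑ i ∈ Finset.range p.natDegree, C (p.coeff i) * X ^ i := by
    conv_lhs => rw [p.as_sum_range_C_mul_X_pow, Finset.sum_range_succ, hp.coeff_natDegree]
    rw [C_1, one_mul, add_comm]
  have h3 : p.eval (pr k x) = pr k (fun j => (q j).eval (x j)) := by
    conv_lhs => rw [h2]
    rw [eval_add, eval_pow, eval_X, eval_finsetSum]
    have h4 : (fun j => (q j).eval (x j)) = x ^ p.natDegree +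
        ∑ i ∈ Finset.range p.natDegree, σ (p.coeff i) * x ^ i := by
      funext j
      simp only [q, eval_add, eval_pow, eval_X, eval_finsetSum, eval_mul, eval_C, Pi.add_apply,
        Pi.pow_apply, Finset.sum_apply, Pi.mul_apply]
    rw [h4, map_add, map_pow, map_sum]
    congr 1
    refine Finset.sum_congr rfl fun i _ => ?_
    rw [eval_mul, eval_C, eval_pow, eval_X, map_mul, map_pow, hσ]
  rw [h3]
  have h5 : (fun j => (q j).eval (x j)) = 0 := funext hx
  rw [h5, map_zero]

lemma charP_UK (p : ℕ) (hp : p.Prime) [∀ j, CharP (k j) p] : CharP (UK k) p := by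
  rw [CharP.charP_iff_prime_eq_zero hp]
  have h1 : ((p : ℕ) : UK k) = pr k (p : ∀ j, k j) := by rw [map_natCast]
  rw [h1]
  have h2 : ((p : ℕ) : ∀ j, k j) = 0 := by
    funext j
    rw [Pi.natCast_apply]
    exact CharP.cast_eq_zero (k j) p
  rw [h2, map_zero]

end ultra

section degrees

variable {C : ∀ (G : Type) [Group G], Prop}

/-- the two factors -/
def BF (G : Type) : Bool → Type
  | true => Multiplicative ℤ
  | false => G

instance (G : Type) [Group G] (b : Bool) : Group (BF G b) := by
  cases b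
  · exact inferInstanceAs (Group G)
  · exact inferInstanceAs (Group (Multiplicative ℤ))

/-- the embedding in the product -/
def bf (G : Type) [Group G] : Multiplicative ℤ × G →* ∀ b, BF G b where
  toFun x b := match b with
    | true => x.1
    | false => x.2
  map_one' := by
    funext b
    cases b <;> rfl
  map_mul' := by
    intro x y
    funext b
    cases b <;> rfl

lemma prod_mem (hC : Prevar C) (hZ : C (Multiplicative ℤ)) (G : Type) [Group G] (hG : C G) :
    C (Multiplicative ℤ × G) := by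
  have h1 : ∀ b, C (BF G b) := by
    intro b
    cases b
    · exact hG
    · exact hZ
  refine hC.sub _ _ (bf G) ?_ (hC.prod Bool (BF G) h1)
  intro x y h
  exact Prod.ext (congrFun h true) (congrFun h false)

/-- from degree `-m` to degree `-(m + 1)` -/
theorem next_degree (hC : Prevar C) (hZ : C (Multiplicative ℤ)) (R : Type) [Ring R] (m : ℕ)
    (h : ∀ (G : Type) [Group G], C G →
      Subsingleton ((Kneg m).obj (RingCat.of (MonoidAlgebra R G)))) (G : Type) [Group G]
    (hG : C G) : Subsingleton ((Kneg (m + 1)).obj (RingCat.of (MonoidAlgebra R G))) := by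
  have h1 : Subsingleton ((Kneg m).obj ((gr R).obj (tz.obj (GrpCat.of G)))) :=
    h (Multiplicative ℤ × G) (prod_mem hC hZ G hG)
  let e := (Kneg m).mapIso ((cur R).app (GrpCat.of G))
  have h2 : Subsingleton ((Kneg m).obj ((gr R ⋙ monF (Multiplicative ℤ)).obj (GrpCat.of G))) := by
    refine ⟨fun x y => ?_⟩
    have h3 : ∀ z, e.inv.hom (e.hom.hom z) = z := fun z =>
      congrArg (fun q => q.hom z) e.hom_inv_id
    rw [← h3 x, ← h3 y]
    exact congrArg e.inv.hom (@Subsingleton.elim _ h1 _ _)
  refine subsingleton_of_forall_eq 0 fun x => ?_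
  obtain ⟨y, rfl⟩ := QuotientAddGroup.mk'_surjective _ x
  have h3 : y = 0 := @Subsingleton.elim _ h2 _ _
  rw [h3]
  exact map_zero _

theorem all_degrees (hC : Prevar C) (hZ : C (Multiplicative ℤ)) (R : Type) [Ring R]
    (h : ∀ (G : Type) [Group G], C G →
      Subsingleton ((Kneg 1).obj (RingCat.of (MonoidAlgebra R G)))) (m : ℕ) (hm : 1 ≤ m) :
    ∀ (G : Type) [Group G], C G →
      Subsingleton ((Kneg m).obj (RingCat.of (MonoidAlgebra R G))) := by
  induction m, hm using Nat.le_induction with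
  | base => exact fun G _ hG => h G hG
  | succ m _ ih => exact fun G _ hG => next_degree hC hZ R m ih G hG

end degrees

section main

lemma exists_cx {k : Type} [Field k] {G : Type} [Group G] {n : ℕ}
    (e : Matrix (Fin n) (Fin n) (LG k G)) : ∃ s, Cx s e := by
  classical
  obtain ⟨M, hM⟩ := ((occ_finite e).image fun p => (Multiplicative.toAdd p.1).natAbs).bddAbove
  refine ⟨∑ i, ∑ j, (e i j).coeff.support.card + M, fun i j => ?_, fun p hp => ?_⟩
  · refine le_trans ?_ (Nat.le_add_right _ _)
    exact (Finset.single_le_sum (f := fun j => (e i j).coeff.support.card)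
      (fun _ _ => Nat.zero_le _) (Finset.mem_univ j)).trans
      (Finset.single_le_sum (f := fun i => ∑ j, (e i j).coeff.support.card)
        (fun _ _ => Nat.zero_le _) (Finset.mem_univ i))
  · have h1 : (Multiplicative.toAdd p.1).natAbs ≤ M := hM ⟨p, hp, rfl⟩
    rw [Int.abs_eq_natAbs]
    exact Int.ofNat_le.2 (h1.trans (Nat.le_add_left _ _))

variable (C : ∀ (G : Type) [Group G], Prop)

/-- the vanishing of the negative `K`-groups -/
def NegVan (k : Type) [Field k] : Prop :=
  ∀ (G : Type) [Group G], C G → ∀ m : ℕ, 1 ≤ m →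
    Subsingleton ((Kneg m).obj (RingCat.of (MonoidAlgebra k G)))

variable {C}

lemma negVan_iff (hC : Prevar C) (hZ : C (Multiplicative ℤ)) (k : Type) [Field k] :
    NegVan C k ↔ ∀ (G : Type) [Group G], C G → ∀ (n : ℕ) (e : Matrix (Fin n) (Fin n) (LG k G)),
      e * e = e → Split e := by
  constructor
  · intro h G _ hG
    exact (kneg_one_iff k G).1 (h G hG 1 le_rfl)
  · intro h G _ hG m hm
    exact all_degrees hC hZ k (fun G _ hG => (kneg_one_iff k G).2 (h G hG)) m hm G hG

lemma negVan_of_good (hC : Prevar C) (hZ : C (Multiplicative ℤ)) (k : Type) [Field k]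
    (h : ∀ n s : ℕ, ∃ N, Good C n s N k) : NegVan C k := by
  rw [negVan_iff hC hZ]
  intro G _ hG n e he
  obtain ⟨s, hs⟩ := exists_cx e
  obtain ⟨N, hN⟩ := h n s
  exact (hN G hG e he hs).split

lemma Good.mono {n s M N : ℕ} (h : M ≤ N) {k : Type} [Field k] (hk : Good C n s M k) :
    Good C n s N k := fun G _ hG e he hes => (hk G hG e he hes).mono h

/-- general form -/
theorem good_of_negVan (hC : Prevar C) (hZ : C (Multiplicative ℤ))
    (Φ : ℕ → ∀ (k : Type) [Field k], Prop) (Φ' : ∀ (k : Type) [Field k], Prop)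
    (hanti : ∀ (M N : ℕ), M ≤ N → ∀ (k : Type) [Field k], Φ N k → Φ M k)
    (hult : ∀ (k : ℕ → Type) [∀ j, Field (k j)], (∀ j, Φ j (k j)) → Φ' (UK k))
    (h : ∀ (k : Type) [Field k], Φ' k → NegVan C k) (n s : ℕ) :
    ∃ N, ∀ (k : Type) [Field k], Φ N k → Good C n s N k := by
  obtain ⟨N, hN⟩ := neg_uniform hC Φ Φ' hanti hult n s fun k _ hk G _ hG e he =>
    (negVan_iff hC hZ k).1 (h k hk) G hG n e he
  exact ⟨N, fun k _ hk G _ hG e he hes => hN k hk G hG e he hes⟩

lemma charZero_of_ringChar {k : Type} [Field k] (h : ringChar k = 0) : CharZero k := by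
  have : CharP k 0 := ringChar.of_eq h
  exact CharP.charP_to_charZero k

lemma ringChar_of_charZero {k : Type} [Field k] [CharZero k] : ringChar k = 0 :=
  ringChar.eq_zero

/-- all fields of characteristic zero -/
theorem main_zero (hC : Prevar C) (hZ : C (Multiplicative ℤ)) :
    (∀ (k : Type) [Field k], CharZero k → NegVan C k) ↔
    ∀ n s : ℕ, ∃ N : ℕ, ∀ (k : Type) [Field k], (ringChar k = 0 ∨ N ≤ ringChar k) →
      Good C n s N k := by
  constructor
  · intro h n s
    exact good_of_negVan hC hZ (fun N k _ => ringChar k = 0 ∨ N ≤ ringChar k)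
      (fun k _ => CharZero k) (fun M N hMN k _ hk => hk.imp id hMN.trans)
      (fun k _ hk => charZero_UK k hk) h n s
  · intro h k _ hk
    refine negVan_of_good hC hZ k fun n s => ?_
    obtain ⟨N, hN⟩ := h n s
    exact ⟨N, hN k (Or.inl ringChar_of_charZero)⟩

/-- algebraically closed fields of characteristic zero -/
theorem main_closed (hC : Prevar C) (hZ : C (Multiplicative ℤ)) : List.TFAE [
    ∀ (k : Type) [Field k], IsAlgClosed k → CharZero k → NegVan C k,
    ∀ n s : ℕ, ∃ N : ℕ, ∀ (k : Type) [Field k], IsAlgClosed k →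
      (ringChar k = 0 ∨ N ≤ ringChar k) → Good C n s N k,
    ∀ n s : ℕ, ∃ N : ℕ, Good C n s N (AlgebraicClosure ℚ),
    ∀ n s : ℕ, ∃ N : ℕ, ∀ (p : ℕ) [Fact p.Prime], N ≤ p →
      Good C n s N (AlgebraicClosure (ZMod p)),
    ∀ n s : ℕ, ∃ N : ℕ, ∀ M : ℕ, ∃ (p : ℕ) (_ : Fact p.Prime), M ≤ p ∧
      Good C n s N (AlgebraicClosure (ZMod p))] := by
  tfae_have 1 → 2 := by
    intro h n s
    obtain ⟨N, hN⟩ := good_of_negVan hC hZ
      (fun N k _ => IsAlgClosed k ∧ (ringChar k = 0 ∨ N ≤ ringChar k))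
      (fun k _ => IsAlgClosed k ∧ CharZero k)
      (fun M N hMN k _ hk => ⟨hk.1, hk.2.imp id hMN.trans⟩)
      (fun k _ hk => by
        have : ∀ j, IsAlgClosed (k j) := fun j => (hk j).1
        exact ⟨isAlgClosed_UK k, charZero_UK k fun j => (hk j).2⟩)
      (fun k _ hk => h k hk.1 hk.2) n s
    exact ⟨N, fun k _ h1 h2 => hN k ⟨h1, h2⟩⟩
  tfae_have 2 → 3 := by
    intro h n s
    obtain ⟨N, hN⟩ := h n s
    exact ⟨N, hN _ inferInstance (Or.inl ringChar_of_charZero)⟩
  tfae_have 3 → 1 := by
    intro h k _ h1 h2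
    refine negVan_of_good hC hZ k fun n s => ?_
    obtain ⟨N, hN⟩ := h n s
    exact ⟨N, good_transfer C n s N 0 (Or.inr rfl) (AlgebraicClosure ℚ) k hN⟩
  tfae_have 2 → 4 := by
    intro h n s
    obtain ⟨N, hN⟩ := h n s
    refine ⟨N, fun p _ hp => hN _ inferInstance (Or.inr ?_)⟩
    have h1 : ringChar (AlgebraicClosure (ZMod p)) = p := ringChar.eq _ p
    rw [h1]
    exact hp
  tfae_have 4 → 5 := by
    intro h n s
    obtain ⟨N, hN⟩ := h n s
    refine ⟨N, fun M => ?_⟩
    obtain ⟨p, hp1, hp2⟩ := Nat.exists_infinite_primes (M + N)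
    have : Fact p.Prime := ⟨hp2⟩
    exact ⟨p, ⟨hp2⟩, by omega, hN p (by omega)⟩
  tfae_have 5 → 1 := by
    intro h k _ h1 h2
    refine negVan_of_good hC hZ k fun n s => ?_
    obtain ⟨N, hN⟩ := h n s
    refine ⟨N, good_of_primes C n s N (fun M => ?_) k⟩
    obtain ⟨p, hp, hp1, hp2⟩ := hN M
    exact ⟨p, hp1, hp.out, hp2⟩
  tfae_finish

/-- algebraically closed fields of prime characteristic -/
theorem main_prime (hC : Prevar C) (hZ : C (Multiplicative ℤ)) (p : ℕ) [hp : Fact p.Prime] :
    (∀ (k : Type) [Field k], IsAlgClosed k → CharP k p → NegVan C k) ↔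
    ∀ n s : ℕ, ∃ N : ℕ, Good C n s N (AlgebraicClosure (ZMod p)) := by
  constructor
  · intro h n s
    obtain ⟨N, hN⟩ := good_of_negVan hC hZ
      (fun _ k _ => IsAlgClosed k ∧ CharP k p)
      (fun k _ => IsAlgClosed k ∧ CharP k p)
      (fun M N hMN k _ hk => hk)
      (fun k _ hk => by
        have : ∀ j, IsAlgClosed (k j) := fun j => (hk j).1
        have : ∀ j, CharP (k j) p := fun j => (hk j).2
        exact ⟨isAlgClosed_UK k, charP_UK k p hp.out⟩)
      (fun k _ hk => h k hk.1 hk.2) n s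
    exact ⟨N, hN _ ⟨inferInstance, inferInstance⟩⟩
  · intro h k _ h1 h2
    refine negVan_of_good hC hZ k fun n s => ?_
    obtain ⟨N, hN⟩ := h n s
    exact ⟨N, good_transfer C n s N p (Or.inl hp.out) (AlgebraicClosure (ZMod p)) k hN⟩

end main

end Pool.Agent.V5helper31.UB
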