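import Pool.Agent.V5helper31.UB.Neg

/-!
# Uniform bounds for the negative `K`-group `K_{-1}`: the equations
-/

set_option autoImplicit false
set_option linter.unusedSectionVars false

namespace Pool.Agent.V5helper31.UB

open Filter MonoidAlgebra
open scoped Pointwise

universe u v

section coeff

variable {k : Type u} [CommRing k] {F G : Type v} [Group F] [Group G]

lemma inj_at (m : ℤ) : Function.Injective fun g : F => (Multiplicative.ofAdd m, g) := by
  intro a b h
  exact congrArg Prod.snd h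

/-- the coefficient of `t ^ m` -/
noncomputable def cf (m : ℤ) (z : LG k F) : MonoidAlgebra k F :=
  MonoidAlgebra.comapDomain (fun g => (Multiplicative.ofAdd m, g)) (inj_at m) z

lemma coeff_cf (m : ℤ) (z : LG k F) (g : F) :
    (cf m z).coeff g = z.coeff (Multiplicative.ofAdd m, g) := by
  simp [cf, MonoidAlgebra.coeff_comapDomain, Finsupp.comapDomain_apply]

lemma cf_zero (m : ℤ) : cf m (0 : LG k F) = 0 := by
  ext g
  simp [coeff_cf]

lemma cf_add (m : ℤ) (y z : LG k F) : cf m (y + z) = cf m y + cf m z := by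
  ext g
  simp [coeff_cf]

lemma cf_single (m : ℤ) (p : Multiplicative ℤ × F) (c : k) :
    cf m (MonoidAlgebra.single p c) =
      if Multiplicative.ofAdd m = p.1 then MonoidAlgebra.single p.2 c else 0 := by
  classical
  ext g
  rw [coeff_cf]
  obtain ⟨a, b⟩ := p
  by_cases h : Multiplicative.ofAdd m = a
  · subst h
    by_cases h2 : b = g
    · subst h2
      simp
    · have h3 : ((Multiplicative.ofAdd m, b) : Multiplicative ℤ × F) ≠
        (Multiplicative.ofAdd m, g) := fun h4 => h2 (congrArg Prod.snd h4)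
      simp [MonoidAlgebra.coeff_single, h2, h3]
  · have h3 : ((a, b) : Multiplicative ℤ × F) ≠
        (Multiplicative.ofAdd m, g) := fun h4 => h (congrArg Prod.fst h4).symm
    simp only [if_neg h]
    simp [MonoidAlgebra.coeff_single, h3]

lemma cf_map_ring {k' : Type u} [CommRing k'] (f : k →+* k') (m : ℤ) (z : LG k F) :
    cf m (MonoidAlgebra.mapRingHom _ f z) = MonoidAlgebra.mapRingHom F f (cf m z) := by
  ext g
  simp [coeff_cf]

lemma cf_map_group (φ : F →* G) (m : ℤ) (z : LG k F) :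
    cf m (MonoidAlgebra.mapDomainRingHom k (zm φ) z) =
      MonoidAlgebra.mapDomainRingHom k φ (cf m z) := by
  induction z using MonoidAlgebra.induction_linear with
  | zero => simp [cf_zero]
  | add x y hx hy => rw [map_add, cf_add, hx, hy, cf_add, map_add]
  | single p c =>
    rw [cf_single]
    have h1 : MonoidAlgebra.mapDomainRingHom k (zm φ) (MonoidAlgebra.single p c) =
      MonoidAlgebra.single (zm φ p) c := by simp
    rw [h1, cf_single]
    have h2 : (zm φ p).1 = p.1 := rfl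
    rw [h2]
    by_cases h : Multiplicative.ofAdd m = p.1
    · rw [if_pos h, if_pos h]
      simp
    · rw [if_neg h, if_neg h, map_zero]

lemma eq_zero_of_cf (z : LG k F) (h : ∀ m, cf m z = 0) : z = 0 := by
  ext p
  obtain ⟨a, g⟩ := p
  have h1 := congrArg (fun y => y.coeff g) (h (Multiplicative.toAdd a))
  simp only [coeff_cf] at h1
  exact h1

/-- exponents of `t` between `-B` and `B` -/
def Dg (B : ℤ) (z : LG k F) : Prop := ∀ p, z.coeff p ≠ 0 → |Multiplicative.toAdd p.1| ≤ B

lemma Dg.sum {B : ℤ} {ι : Type*} (S : Finset ι) (f : ι → LG k F) (h : ∀ i ∈ S, Dg B (f i)) :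
    Dg B (∑ i ∈ S, f i) := by
  classical
  intro p hp
  by_contra hcon
  apply hp
  have h1 : (∑ i ∈ S, f i).coeff p = ∑ i ∈ S, (f i).coeff p := by simp
  rw [h1]
  refine Finset.sum_eq_zero fun i hi => ?_
  by_contra h2
  exact hcon (h i hi p h2)

lemma Dg.sub {B : ℤ} {y z : LG k F} (hy : Dg B y) (hz : Dg B z) : Dg B (y - z) := by
  intro p hp
  by_contra hcon
  apply hp
  have h1 : y.coeff p = 0 := by
    by_contra h
    exact hcon (hy p h)
  have h2 : z.coeff p = 0 := by
    by_contra h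
    exact hcon (hz p h)
  simp [h1, h2]

lemma Dg.mul {B C : ℤ} {y z : LG k F} (hy : Dg B y) (hz : Dg C z) : Dg (B + C) (y * z) := by
  classical
  intro p hp
  rw [MonoidAlgebra.coeff_mul] at hp
  obtain ⟨a, ha, h1⟩ := Finset.exists_ne_zero_of_sum_ne_zero hp
  obtain ⟨b, hb, h2⟩ := Finset.exists_ne_zero_of_sum_ne_zero h1
  have h3 : a * b = p := by
    by_contra h4
    exact h2 (if_neg h4)
  rw [← h3]
  have h5 := hy a (Finsupp.mem_support_iff.1 ha)
  have h6 := hz b (Finsupp.mem_support_iff.1 hb)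
  have h7 : Multiplicative.toAdd (a * b).1 =
    Multiplicative.toAdd a.1 + Multiplicative.toAdd b.1 := rfl
  rw [h7]
  exact (abs_add_le _ _).trans (add_le_add h5 h6)

lemma Dg.mono {B C : ℤ} (h : B ≤ C) {z : LG k F} (hz : Dg B z) : Dg C z :=
  fun p hp => (hz p hp).trans h

lemma Dg.single {B : ℤ} {p : Multiplicative ℤ × F} (h : |Multiplicative.toAdd p.1| ≤ B) (c : k) :
    Dg B (MonoidAlgebra.single p c : LG k F) := by
  classical
  intro q hq
  rw [MonoidAlgebra.coeff_single, Finsupp.single_apply] at hq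
  by_cases h1 : p = q
  · rw [← h1]
    exact h
  · rw [if_neg h1] at hq
    exact absurd rfl hq

lemma Dg.cf {B : ℤ} {z : LG k F} (hz : Dg B z) (m : ℤ) (hm : B < |m|) : cf m z = 0 := by
  ext g
  rw [coeff_cf]
  by_contra h
  exact absurd (hz _ h) (not_le.2 hm)

end coeff

section letters

variable {L : Type u} {n s : ℕ} (d : Fin n → Fin n → Fin s → ℤ) (ℓ : Fin n → Fin n → Fin s → L)

/-- the matrix whose entries are sums of `s` letters with coefficients and powers of `t` -/
noncomputable def ZM (k : Type u) [CommRing k] (c : L → k) :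
    Matrix (Fin n) (Fin n) (LG k (FreeGroup L)) :=
  Matrix.of fun i j => ∑ t, MonoidAlgebra.single
    (Multiplicative.ofAdd (d i j t), FreeGroup.of (ℓ i j t)) (c (ℓ i j t))

/-- the matrix over the group ring of `ℤ × G` -/
noncomputable def ZG (k : Type u) [CommRing k] {G : Type u} [Group G] (φ : FreeGroup L →* G)
    (c : L → k) : Matrix (Fin n) (Fin n) (LG k G) :=
  Matrix.of fun i j => ∑ t, MonoidAlgebra.single
    (Multiplicative.ofAdd (d i j t), φ (FreeGroup.of (ℓ i j t))) (c (ℓ i j t))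

lemma ZM_map_ring {k k' : Type u} [CommRing k] [CommRing k'] (f : k →+* k') (c : L → k) :
    (ZM d ℓ k c).map (MonoidAlgebra.mapRingHom _ f) = ZM d ℓ k' fun l => f (c l) := by
  ext1 i j
  simp [ZM, Matrix.map_apply]

lemma ZM_map_group (k : Type u) [CommRing k] {G : Type u} [Group G] (φ : FreeGroup L →* G)
    (c : L → k) :
    (ZM d ℓ k c).map (MonoidAlgebra.mapDomainRingHom k (zm φ)) = ZG d ℓ k φ c := by
  ext1 i j
  simp [ZM, ZG, Matrix.map_apply]

lemma ZG_map_ring {k k' : Type u} [CommRing k] [CommRing k'] {G : Type u} [Group G]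
    (φ : FreeGroup L →* G) (f : k →+* k') (c : L → k) :
    (ZG d ℓ k φ c).map (MonoidAlgebra.mapRingHom _ f) = ZG d ℓ k' φ fun l => f (c l) := by
  ext1 i j
  simp [ZG, Matrix.map_apply]

lemma ZG_map_group {k : Type u} [CommRing k] {Γ G : Type u} [Group Γ] [Group G]
    (q : FreeGroup L →* Γ) (ψ : Γ →* G) (c : L → k) :
    (ZG d ℓ k q c).map (MonoidAlgebra.mapDomainRingHom k (zm ψ)) = ZG d ℓ k (ψ.comp q) c := by
  ext1 i j
  simp [ZG, Matrix.map_apply]

lemma Dg_ZM {B : ℕ} (hd : ∀ i j t, |d i j t| ≤ B) (k : Type u) [CommRing k] (c : L → k)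
    (i j : Fin n) :
    Dg (2 * B) ((ZM d ℓ k c * ZM d ℓ k c - ZM d ℓ k c) i j) := by
  have h1 : ∀ i j, Dg (B : ℤ) (ZM d ℓ k c i j) := fun i j => by
    rw [ZM, Matrix.of_apply]
    exact Dg.sum _ _ fun t _ => Dg.single (hd i j t) _
  have h2 : (ZM d ℓ k c * ZM d ℓ k c - ZM d ℓ k c) i j =
    ∑ l, ZM d ℓ k c i l * ZM d ℓ k c l j - ZM d ℓ k c i j := by
    rw [Matrix.sub_apply, Matrix.mul_apply]
  rw [h2]
  refine Dg.sub (Dg.sum _ _ fun l _ => ((h1 i l).mul (h1 l j)).mono (by omega)) ?_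
  exact (h1 i j).mono (by omega)

/-- the idempotent equation -/
noncomputable def SZ (B : ℕ) : Sys L (Fin n × Fin n × Fin (4 * B + 1)) where
  h k _ c p := cf ((p.2.2 : ℤ) - 2 * B) ((ZM d ℓ k c * ZM d ℓ k c - ZM d ℓ k c) p.1 p.2.1)
  nat k k' _ _ f c p := by
    have h1 : (ZM d ℓ k c * ZM d ℓ k c - ZM d ℓ k c).map
        (MonoidAlgebra.mapRingHom _ f) =
        ZM d ℓ k' (fun l => f (c l)) * ZM d ℓ k' (fun l => f (c l)) -
          ZM d ℓ k' fun l => f (c l) := by
      rw [Matrix.map_sub _ (map_sub _), Matrix.map_mul, ZM_map_ring]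
    rw [← cf_map_ring]
    exact congrArg _ (congrFun (congrFun h1 p.1) p.2.1)

lemma holds_SZ {B : ℕ} (hd : ∀ i j t, |d i j t| ≤ B) {k : Type u} [CommRing k] {G : Type u}
    [Group G] (φ : FreeGroup L →* G) (c : L → k) :
    (SZ d ℓ B).Holds k G φ c ↔ ZG d ℓ k φ c * ZG d ℓ k φ c = ZG d ℓ k φ c := by
  have h1 : (ZM d ℓ k c * ZM d ℓ k c - ZM d ℓ k c).map
        (MonoidAlgebra.mapDomainRingHom k (zm φ)) =
        ZG d ℓ k φ c * ZG d ℓ k φ c - ZG d ℓ k φ c := by
    rw [Matrix.map_sub _ (map_sub _), Matrix.map_mul, ZM_map_group]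
  rw [← sub_eq_zero (b := ZG d ℓ k φ c), ← h1]
  constructor
  · intro h
    ext1 i j
    rw [Matrix.map_apply]
    refine eq_zero_of_cf _ fun m => ?_
    rw [cf_map_group]
    by_cases hm : |m| ≤ 2 * B
    · rw [abs_le] at hm
      have h2 := h (i, j, ⟨(m + 2 * B).toNat, by omega⟩)
      have h3 : (((m + 2 * B).toNat : ℕ) : ℤ) - 2 * B = m := by omega
      simp only [SZ] at h2
      rw [h3] at h2
      exact h2
    · rw [Dg.cf (Dg_ZM d ℓ hd k c i j) m (not_le.1 hm), map_zero]
  · intro h p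
    change MonoidAlgebra.mapDomainRingHom k φ (cf _ _) = 0
    rw [← cf_map_group]
    have h2 := congrFun (congrFun h p.1) p.2.1
    rw [Matrix.map_apply] at h2
    rw [h2]
    exact cf_zero _

/-- representation of a matrix with few terms -/
lemma exists_terms_Z {k : Type u} [CommRing k] {G : Type u} [Group G] (a : LG k G)
    (s : ℕ) (ha : a.coeff.support.card ≤ s) :
    ∃ (γ : Fin s → Multiplicative ℤ × G) (c : Fin s → k),
      a = ∑ t, MonoidAlgebra.single (γ t) (c t) ∧
      ∀ t, γ t ∈ insert 1 (a.coeff.support : Set (Multiplicative ℤ × G)) := by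
  classical
  have h1 : Fintype.card a.coeff.support ≤ Fintype.card (Fin s) := by
    rw [Fintype.card_coe, Fintype.card_fin]
    exact ha
  obtain ⟨e⟩ := Function.Embedding.nonempty_of_card_le h1
  refine ⟨fun t => if h : ∃ x, e x = t then (h.choose : Multiplicative ℤ × G) else 1,
    fun t => if h : ∃ x, e x = t then a.coeff h.choose else 0, ?_, ?_⟩
  · have h2 := Fintype.sum_of_injective e e.injective
      (fun x : a.coeff.support => MonoidAlgebra.single (x : Multiplicative ℤ × G) (a.coeff x))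
      (fun t => MonoidAlgebra.single
        (if h : ∃ x, e x = t then (h.choose : Multiplicative ℤ × G) else 1)
        (if h : ∃ x, e x = t then a.coeff h.choose else 0))
      (by
        intro t ht
        have h3 : ¬ ∃ x, e x = t := fun ⟨x, hx⟩ => ht ⟨x, hx⟩
        simp [h3])
      (by
        intro x
        have h3 : ∃ y, e y = e x := ⟨x, rfl⟩
        have h4 : h3.choose = x := e.injective h3.choose_spec
        rw [dif_pos h3, dif_pos h3, h4])
    rw [← h2]
    apply MonoidAlgebra.coeff_injective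
    ext g
    rw [Finset.sum_coe_sort a.coeff.support
      (fun x => MonoidAlgebra.single x (a.coeff x))]
    have h5 : (∑ x ∈ a.coeff.support, MonoidAlgebra.single x (a.coeff x)).coeff g =
      ∑ x ∈ a.coeff.support, (MonoidAlgebra.single x (a.coeff x)).coeff g := by
      simp
    rw [h5]
    simp only [MonoidAlgebra.coeff_single, Finsupp.single_apply]
    rw [Finset.sum_ite_eq' a.coeff.support g]
    by_cases hg : g ∈ a.coeff.support
    · rw [if_pos hg]
    · rw [if_neg hg]
      exact Finsupp.notMem_support_iff.1 hg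
  · intro t
    by_cases h : ∃ x, e x = t
    · simp only [dif_pos h]
      exact Or.inr h.choose.2
    · simp only [dif_neg h]
      exact Set.mem_insert _ _

end letters

section main

variable {n s : ℕ}

lemma exists_repr_Z {k : Type u} [CommRing k] {G : Type u} [Group G]
    (e : Matrix (Fin n) (Fin n) (LG k G)) (he : Cx s e) :
    ∃ (d : Fin n → Fin n → Fin s → ℤ) (φ : FreeGroup (LT.{u} n s) →* G) (c : LT.{u} n s → k),
      (∀ i j t, |d i j t| ≤ s) ∧ ZG d (lt n s) k φ c = e ∧
      (Set.range fun l => φ (FreeGroup.of l)) ⊆ insert 1 (Prod.snd '' occ e) := by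
  have h := fun i j => exists_terms_Z (e i j) s (he.1 i j)
  choose γ c h1 h2 using h
  refine ⟨fun i j t => Multiplicative.toAdd (γ i j t).1,
    FreeGroup.lift fun l => (γ l.down.1 l.down.2.1 l.down.2.2).2,
    fun l => c l.down.1 l.down.2.1 l.down.2.2, ?_, ?_, ?_⟩
  · intro i j t
    change |Multiplicative.toAdd (γ i j t).1| ≤ _
    rcases h2 i j t with h3 | h3
    · rw [h3]
      simp
    · exact he.2 _ ⟨i, j, Finsupp.mem_support_iff.1 h3⟩
  · ext1 i j
    rw [h1 i j]
    simp [ZG]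
  · rintro _ ⟨⟨i, j, t⟩, rfl⟩
    simp only [FreeGroup.lift_apply_of]
    rcases h2 i j t with h3 | h3
    · rw [h3]
      exact Set.mem_insert _ _
    · exact Or.inr ⟨_, ⟨i, j, Finsupp.mem_support_iff.1 h3⟩, rfl⟩

variable {C : ∀ (G : Type u) [Group G], Prop}

/-- uniform bounds for fixed exponents -/
theorem neg_uniform_d (hC : Prevar C)
    (Φ : ℕ → ∀ (k : Type u) [Field k], Prop) (Φ' : ∀ (k : Type u) [Field k], Prop)
    (hanti : ∀ (M N : ℕ), M ≤ N → ∀ (k : Type u) [Field k], Φ N k → Φ M k)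
    (hult : ∀ (k : ℕ → Type u) [∀ j, Field (k j)], (∀ j, Φ j (k j)) → Φ' (UK k))
    (n s : ℕ) (d : Fin n → Fin n → Fin s → ℤ) (hd : ∀ i j t, |d i j t| ≤ s)
    (hex : ∀ (k : Type u) [Field k], Φ' k → ∀ (G : Type u) [Group G], C G →
      ∀ e : Matrix (Fin n) (Fin n) (LG k G), e * e = e → Split e) :
    ∃ N, ∀ (k : Type u) [Field k], Φ N k → ∀ (G : Type u) [Group G], C G →
      ∀ (φ : FreeGroup (LT.{u} n s) →* G) (c : LT.{u} n s → k),
        ZG d (lt n s) k φ c * ZG d (lt n s) k φ c = ZG d (lt n s) k φ c →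
        SplitIn N (Set.range fun l => φ (FreeGroup.of l)) (ZG d (lt n s) k φ c) := by
  obtain ⟨N, hN⟩ := uniform hC (SZ d (lt.{u} n s) s) ∅ Φ Φ' hanti hult
    (fun N k _ G _ φ c => SplitIn N (Set.range fun l => φ (FreeGroup.of l))
      (ZG d (lt n s) k φ c))
    (fun M N h k _ G _ φ c h1 => h1.mono h)
    (fun N k _ Γ G _ _ q ψ c _ h => by
      have h1 := h.push ψ
      rw [ZG_map_group, ← Set.range_comp] at h1
      exact h1)
    (fun N k _ Γ _ q c _ h => by
      have h1 := ZG_map_ring d (lt n s) q (pr k) (fun l j => c j l)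
      rw [← h1] at h
      have h2 := h.los
      filter_upwards [h2] with j hj
      rw [ZG_map_ring] at hj
      exact hj)
    (fun k _ hk Γ _ hΓ q c hq hc =>
      (hex k hk Γ hΓ _ ((holds_SZ d _ hd q c).1 hc)).exists_in q hq)
  exact ⟨N, fun k _ hk G _ hG φ c h => hN k hk G hG φ c ((holds_SZ d _ hd φ c).2 h)⟩

/-- uniform bounds -/
theorem neg_uniform (hC : Prevar C)
    (Φ : ℕ → ∀ (k : Type u) [Field k], Prop) (Φ' : ∀ (k : Type u) [Field k], Prop)
    (hanti : ∀ (M N : ℕ), M ≤ N → ∀ (k : Type u) [Field k], Φ N k → Φ M k)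
    (hult : ∀ (k : ℕ → Type u) [∀ j, Field (k j)], (∀ j, Φ j (k j)) → Φ' (UK k))
    (n s : ℕ)
    (hex : ∀ (k : Type u) [Field k], Φ' k → ∀ (G : Type u) [Group G], C G →
      ∀ e : Matrix (Fin n) (Fin n) (LG k G), e * e = e → Split e) :
    ∃ N, ∀ (k : Type u) [Field k], Φ N k → ∀ (G : Type u) [Group G], C G →
      ∀ e : Matrix (Fin n) (Fin n) (LG k G), e * e = e → Cx s e →
        SplitIn N (Prod.snd '' occ e) e := by
  classical
  let D : Finset (Fin n → Fin n → Fin s → ℤ) :=
    Fintype.piFinset fun _ => Fintype.piFinset fun _ => Fintype.piFinset fun _ =>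
      Finset.Icc (-(s : ℤ)) s
  have hD : ∀ d, d ∈ D ↔ ∀ i j t, |d i j t| ≤ (s : ℤ) := by
    intro d
    simp only [D, Fintype.mem_piFinset, Finset.mem_Icc, abs_le]
  have h := fun d : D => neg_uniform_d hC Φ Φ' hanti hult n s d.1 ((hD d.1).1 d.2) hex
  choose N hN using h
  let M := Finset.univ.sup N
  refine ⟨M, fun k _ hk G _ hG e he hes => ?_⟩
  obtain ⟨d, φ, c, hd, rfl, h2⟩ := exists_repr_Z e hes
  have h3 : N ⟨d, (hD d).2 hd⟩ ≤ M := Finset.le_sup (f := N) (Finset.mem_univ _)
  have h4 := hN ⟨d, (hD d).2 hd⟩ k (hanti _ _ h3 k hk) G hG φ c he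
  exact (h4.mono h3).mono_left h2

end main

end Pool.Agent.V5helper31.UB
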