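import Pool.Agent.Y75.NK.Thm

/-!
# Equality in `K₀` is stable equivalence of idempotent matrices
-/

set_option autoImplicit false
set_option linter.unusedSectionVars false

namespace Pool.Agent.V5helper31.UB

open Pool.Agent.Y75.NK Matrix

section eqv

variable {A : Type} [Ring A]

/-- equivalence of idempotent matrices with arbitrary index sets -/
def Eqv {ι κ : Type} [Fintype ι] [Fintype κ] (E : Matrix ι ι A) (F : Matrix κ κ A) : Prop :=
  ∃ (x : Matrix ι κ A) (y : Matrix κ ι A), x * y = E ∧ y * x = F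

variable {ι κ ν ι' κ' : Type} [Fintype ι] [Fintype κ] [Fintype ν] [Fintype ι'] [Fintype κ']
  [DecidableEq ι] [DecidableEq κ] [DecidableEq ν] [DecidableEq ι'] [DecidableEq κ']

lemma Eqv.symm {E : Matrix ι ι A} {F : Matrix κ κ A} (h : Eqv E F) : Eqv F E := by
  obtain ⟨x, y, h1, h2⟩ := h
  exact ⟨y, x, h2, h1⟩

lemma Eqv.refl (E : Matrix ι ι A) (hE : E * E = E) : Eqv E E := ⟨E, E, hE, hE⟩

lemma Eqv.trans {E : Matrix ι ι A} {F : Matrix κ κ A} {G : Matrix ν ν A}
    (h : Eqv E F) (h' : Eqv F G) (hE : E * E = E) (hG : G * G = G) : Eqv E G := by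
  obtain ⟨x, y, h1, h2⟩ := h
  obtain ⟨u, v, h3, h4⟩ := h'
  refine ⟨x * u, v * y, ?_, ?_⟩
  · rw [Matrix.mul_assoc, ← Matrix.mul_assoc u, h3, ← h2, Matrix.mul_assoc y x y,
      ← Matrix.mul_assoc x y, h1, hE]
  · rw [Matrix.mul_assoc, ← Matrix.mul_assoc y, h2, ← h3, Matrix.mul_assoc u v u,
      ← Matrix.mul_assoc v u, h4, hG]

lemma Eqv.reindex (σ : ι ≃ κ) (E : Matrix ι ι A) (hE : E * E = E) :
    Eqv E (E.submatrix σ.symm σ.symm) := by
  refine ⟨E.submatrix id σ.symm, E.submatrix σ.symm id, ?_, ?_⟩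
  · rw [Matrix.submatrix_mul_equiv, hE, Matrix.submatrix_id_id]
  · have h := Matrix.submatrix_mul E E σ.symm (id : ι → ι) σ.symm Function.bijective_id
    rw [← h, hE]

lemma Eqv.blocks {E : Matrix ι ι A} {F : Matrix κ κ A} {E' : Matrix ι' ι' A}
    {F' : Matrix κ' κ' A} (h : Eqv E E') (h' : Eqv F F') :
    Eqv (Matrix.fromBlocks E 0 0 F) (Matrix.fromBlocks E' 0 0 F') := by
  obtain ⟨x, y, h1, h2⟩ := h
  obtain ⟨u, v, h3, h4⟩ := h'
  refine ⟨Matrix.fromBlocks x 0 0 u, Matrix.fromBlocks y 0 0 v, ?_, ?_⟩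
  · rw [Matrix.fromBlocks_multiply]
    simp only [Matrix.mul_zero, Matrix.zero_mul, add_zero, zero_add, h1, h3]
  · rw [Matrix.fromBlocks_multiply]
    simp only [Matrix.mul_zero, Matrix.zero_mul, add_zero, zero_add, h2, h4]

lemma idem_blocks {E : Matrix ι ι A} {F : Matrix κ κ A} (h : E * E = E) (h' : F * F = F) :
    Matrix.fromBlocks E 0 0 F * Matrix.fromBlocks E 0 0 F = Matrix.fromBlocks E 0 0 F := by
  rw [Matrix.fromBlocks_multiply]
  simp only [Matrix.mul_zero, Matrix.zero_mul, add_zero, zero_add, h, h']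

lemma Eqv.assoc {E : Matrix ι ι A} {F : Matrix κ κ A} {G : Matrix ν ν A} (hE : E * E = E)
    (hF : F * F = F) (hG : G * G = G) :
    Eqv (Matrix.fromBlocks (Matrix.fromBlocks E 0 0 F) 0 0 G)
      (Matrix.fromBlocks E 0 0 (Matrix.fromBlocks F 0 0 G)) := by
  have h := Eqv.reindex (Equiv.sumAssoc ι κ ν)
    (Matrix.fromBlocks (Matrix.fromBlocks E 0 0 F) 0 0 G) (idem_blocks (idem_blocks hE hF) hG)
  have h2 : (Matrix.fromBlocks (Matrix.fromBlocks E 0 0 F) 0 0 G).submatrix
      (Equiv.sumAssoc ι κ ν).symm (Equiv.sumAssoc ι κ ν).symm =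
      Matrix.fromBlocks E 0 0 (Matrix.fromBlocks F 0 0 G) := by
    ext i j
    rcases i with i | i | i <;> rcases j with j | j | j <;> rfl
  rw [h2] at h
  exact h

lemma Eqv.comm {E : Matrix ι ι A} {F : Matrix κ κ A} (hE : E * E = E) (hF : F * F = F) :
    Eqv (Matrix.fromBlocks E 0 0 F) (Matrix.fromBlocks F 0 0 E) := by
  have h := Eqv.reindex (Equiv.sumComm ι κ) (Matrix.fromBlocks E 0 0 F) (idem_blocks hE hF)
  have h2 : (Matrix.fromBlocks E 0 0 F).submatrix
      (Equiv.sumComm ι κ).symm (Equiv.sumComm ι κ).symm = Matrix.fromBlocks F 0 0 E := by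
    ext i j
    rcases i with i | i <;> rcases j with j | j <;> rfl
  rw [h2] at h
  exact h

lemma Eqv.sum (e f : Idem A) : Eqv (e.sum f).e (Matrix.fromBlocks e.e 0 0 f.e) := by
  refine (Eqv.reindex finSumFinEquiv (Matrix.fromBlocks e.e 0 0 f.e)
    (idem_blocks e.idem f.idem)).symm

lemma Eqv.zero_right (e : Idem A) (z : Matrix (Fin 0) (Fin 0) A) :
    Eqv (Matrix.fromBlocks e.e 0 0 z) e.e := by
  refine (Eqv.symm ?_)
  refine ⟨Matrix.of fun i j => Sum.elim (fun l => e.e i l) (fun _ => 0) j,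
    Matrix.of fun i j => Sum.elim (fun l => e.e l j) (fun _ => 0) i, ?_, ?_⟩
  · ext i j
    rw [Matrix.mul_apply, Fintype.sum_sum_type]
    simp only [Matrix.of_apply, Sum.elim_inl, Sum.elim_inr, mul_zero, Finset.sum_const_zero,
      add_zero]
    have := congrFun (congrFun e.idem i) j
    rw [Matrix.mul_apply] at this
    exact this
  · ext i j
    rcases i with i | i
    · rcases j with j | j
      · rw [Matrix.mul_apply]
        have := congrFun (congrFun e.idem i) j
        rw [Matrix.mul_apply] at this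
        exact this
      · exact j.elim0
    · exact i.elim0

end eqv

section quot

variable {A : Type} [Ring A]

lemma sum_congr' {e f e' f' : Idem A} (h : e.Equiv e') (h' : f.Equiv f') :
    (e.sum f).Equiv (e'.sum f') := by
  have h1 : Eqv e.e e'.e := h
  have h2 : Eqv f.e f'.e := h'
  have h3 := (Eqv.sum e f).trans (h1.blocks h2) (e.sum f).idem (idem_blocks e'.idem f'.idem)
  exact h3.trans (Eqv.sum e' f').symm (e.sum f).idem (e'.sum f').idem

lemma sum_comm' (e f : Idem A) : (e.sum f).Equiv (f.sum e) := by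
  have h3 := (Eqv.sum e f).trans (Eqv.comm e.idem f.idem) (e.sum f).idem
    (idem_blocks f.idem e.idem)
  exact h3.trans (Eqv.sum f e).symm (e.sum f).idem (f.sum e).idem

lemma sum_assoc' (e f g : Idem A) : ((e.sum f).sum g).Equiv (e.sum (f.sum g)) := by
  have h1 := (Eqv.sum (e.sum f) g).trans ((Eqv.sum e f).blocks (Eqv.refl g.e g.idem))
    ((e.sum f).sum g).idem (idem_blocks (idem_blocks e.idem f.idem) g.idem)
  have h2 := h1.trans (Eqv.assoc e.idem f.idem g.idem) ((e.sum f).sum g).idem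
    (idem_blocks e.idem (idem_blocks f.idem g.idem))
  have h3 := h2.trans ((Eqv.refl e.e e.idem).blocks (Eqv.sum f g).symm)
    ((e.sum f).sum g).idem (idem_blocks e.idem (f.sum g).idem)
  exact h3.trans (Eqv.sum e (f.sum g)).symm ((e.sum f).sum g).idem (e.sum (f.sum g)).idem

lemma sum_zero' (e z : Idem A) (hz : z.n = 0) : (e.sum z).Equiv e := by
  obtain ⟨n, z, hz'⟩ := z
  change n = 0 at hz
  subst hz
  exact (Eqv.sum e ⟨0, z, hz'⟩).trans (Eqv.zero_right e z) (e.sum ⟨0, z, hz'⟩).idem e.idem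

variable (A) in
/-- the equivalence relation -/
def std : Setoid (Idem A) where
  r := Idem.Equiv
  iseqv := ⟨fun e => Eqv.refl e.e e.idem, fun h => Eqv.symm h,
    fun {e _ g} h h' => Eqv.trans h h' e.idem g.idem⟩

variable (A) in
/-- the monoid of equivalence classes -/
def QM : Type := Quotient (std A)

instance : Add (QM A) where
  add := Quotient.map₂ Idem.sum fun _ _ h _ _ h' => sum_congr' h h'

instance : Zero (QM A) where
  zero := Quotient.mk _ ⟨0, 0, by simp⟩

instance : AddCommMonoid (QM A) where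
  nsmul := nsmulRec
  add_assoc := by
    rintro ⟨e⟩ ⟨f⟩ ⟨g⟩
    exact Quotient.sound (sum_assoc' e f g)
  add_comm := by
    rintro ⟨e⟩ ⟨f⟩
    exact Quotient.sound (sum_comm' e f)
  add_zero := by
    rintro ⟨e⟩
    exact Quotient.sound (sum_zero' e _ rfl)
  zero_add := by
    rintro ⟨e⟩
    refine Quotient.sound ?_
    exact Eqv.trans (sum_comm' _ e) (sum_zero' e _ rfl) (Idem.sum _ e).idem e.idem

/-- the class in the monoid -/
def qm (e : Idem A) : QM A := Quotient.mk _ e

lemma qm_sum (e f : Idem A) : qm (e.sum f) = qm e + qm f := rfl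

lemma qm_eq {e f : Idem A} : qm e = qm f ↔ e.Equiv f :=
  ⟨fun h => Quotient.exact h, fun h => Quotient.sound h⟩

/-- the map to the Grothendieck group of the monoid -/
noncomputable def toGro : K0 A →+ Algebra.GrothendieckAddGroup (QM A) :=
  QuotientAddGroup.lift (rel A)
    (FreeAbelianGroup.lift fun e => Algebra.GrothendieckAddGroup.of (qm e)) (by
      unfold rel
      rw [AddSubgroup.closure_le]
      rintro z (⟨e, f, rfl⟩ | ⟨e, f, h, rfl⟩)
      · rw [SetLike.mem_coe, AddMonoidHom.mem_ker, map_sub, map_sub, FreeAbelianGroup.lift_apply_of,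
          FreeAbelianGroup.lift_apply_of, FreeAbelianGroup.lift_apply_of, qm_sum, map_add]
        abel
      · rw [SetLike.mem_coe, AddMonoidHom.mem_ker, map_sub, FreeAbelianGroup.lift_apply_of,
          FreeAbelianGroup.lift_apply_of, qm_eq.2 h, sub_self])

lemma toGro_cls (e : Idem A) : toGro (cls e) = Algebra.GrothendieckAddGroup.of (qm e) := by
  change FreeAbelianGroup.lift _ (FreeAbelianGroup.of e) = _
  rw [FreeAbelianGroup.lift_apply_of]

/-- equality in `K₀` is stable equivalence -/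
theorem cls_eq_iff {e f : Idem A} : cls e = cls f ↔ ∃ g : Idem A, (e.sum g).Equiv (f.sum g) := by
  constructor
  · intro h
    have h1 := congrArg toGro h
    rw [toGro_cls, toGro_cls] at h1
    have h2 : ∃ c : (⊤ : AddSubmonoid (QM A)), (c : QM A) + qm e = c + qm f := by
      exact (AddLocalization.addMonoidOf _).eq_iff_exists.1 h1
    obtain ⟨⟨⟨g⟩, _⟩, hg⟩ := h2
    change qm g + qm e = qm g + qm f at hg
    rw [add_comm, add_comm (qm g), ← qm_sum, ← qm_sum, qm_eq] at hg
    exact ⟨g, hg⟩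
  · rintro ⟨g, hg⟩
    have h1 := cls_eq hg
    rw [cls_sum, cls_sum] at h1
    exact add_right_cancel h1

end quot

end Pool.Agent.V5helper31.UB
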